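import Mathlib

set_option autoImplicit false

namespace Pool.Agent.KS6_21.S

/-- Real data of a two-triangle system: parameters and the three roots of
`X ^ 3 - s X ^ 2 + t X - 1`. -/
structure Dat where
  m : ℝ
  x : ℝ
  d : ℝ
  r : ℝ
  s : ℝ
  t : ℝ
  a : ℝ
  b : ℝ
  c : ℝ
  hm : 2 ≤ m
  hx : m ≤ x
  hd : x + 1 ≤ d
  rel : d ^ 2 + x ^ 2 = m * d * x + 1
  hr : r = m * d - x
  hs : s = r + m + 1
  ht : t = d + m + 1
  ha : a ^ 3 - s * a ^ 2 + t * a - 1 = 0
  hb : b ^ 3 - s * b ^ 2 + t * b - 1 = 0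
  hc : c ^ 3 - s * c ^ 2 + t * c - 1 = 0
  a0 : 0 < a
  a1 : m * a < 1
  b0 : 1 < m * b
  b1 : b < 1
  c0 : 1 < c

lemma sgn1 {u v w : ℝ} (h : 0 < u * v * w) (hv : v < 0) (hw : w < 0) : 0 < u := by
  have h1 := mul_pos_of_neg_of_neg hv hw
  by_contra hcon
  push Not at hcon
  nlinarith

lemma sgn2 {u v w : ℝ} (h : 0 < u * v * w) (hu : 0 < u) (hw : w < 0) : v < 0 := by
  by_contra hcon
  push Not at hcon
  have h1 := mul_nonneg hu.le hcon
  nlinarith

lemma sgn3 {u v w : ℝ} (h : u * v * w < 0) (hu : 0 < u) (hw : w < 0) : 0 < v := by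
  by_contra hcon
  push Not at hcon
  have h1 : u * v ≤ 0 := mul_nonpos_of_nonneg_of_nonpos hu.le hcon
  nlinarith

lemma sgn4 {u v w : ℝ} (h : u * v * w < 0) (hu : 0 < u) (hv : 0 < v) : w < 0 := by
  have h1 := mul_pos hu hv
  by_contra hcon
  push Not at hcon
  nlinarith

namespace Dat

variable (D : Dat)

lemma m_lt_d : D.m + 1 ≤ D.d := by linarith [D.hx, D.hd]

lemma d_lt_r : D.d + 1 ≤ D.r := by
  have h1 := D.hm
  have h2 := D.hd
  have h3 := D.m_lt_d
  rw [D.hr]
  nlinarith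

lemma r_le : D.r ≤ D.m * D.d - D.m := by
  have h1 := D.hx
  rw [D.hr]
  linarith

lemma md_le : D.m * D.d ≤ D.d ^ 2 - D.d := by
  have h1 := D.m_lt_d
  have h2 := D.hm
  nlinarith

lemma a_lt : D.a < 1 := by
  have h1 := D.hm
  have h2 := D.a1
  have h3 := D.a0
  nlinarith

lemma b_pos : 0 < D.b := by
  have h1 := D.hm
  have h2 := D.b0
  by_contra hcon
  push Not at hcon
  nlinarith

lemma c_pos : 0 < D.c := by linarith [D.c0]

lemma lt_ab : D.a < D.b := by
  have h1 := D.hm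
  have h2 := D.a1
  have h3 := D.b0
  by_contra hcon
  push Not at hcon
  have := mul_le_mul_of_nonneg_left hcon (by linarith : (0:ℝ) ≤ D.m)
  linarith

lemma lt_bc : D.b < D.c := by linarith [D.b1, D.c0]

theorem e1 : D.a + D.b + D.c = D.s := by
  have hab := D.lt_ab
  have hbc := D.lt_bc
  have h1 : D.a ^ 2 + D.a * D.b + D.b ^ 2 - D.s * (D.a + D.b) + D.t = 0 := by
    have : (D.a - D.b) * (D.a ^ 2 + D.a * D.b + D.b ^ 2 - D.s * (D.a + D.b) + D.t) = 0 := by
      linear_combination D.ha - D.hb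
    rcases mul_eq_zero.mp this with h | h
    · linarith
    · exact h
  have h2 : D.b ^ 2 + D.b * D.c + D.c ^ 2 - D.s * (D.b + D.c) + D.t = 0 := by
    have : (D.b - D.c) * (D.b ^ 2 + D.b * D.c + D.c ^ 2 - D.s * (D.b + D.c) + D.t) = 0 := by
      linear_combination D.hb - D.hc
    rcases mul_eq_zero.mp this with h | h
    · linarith
    · exact h
  have h3 : (D.a - D.c) * (D.a + D.b + D.c - D.s) = 0 := by
    linear_combination h1 - h2
  rcases mul_eq_zero.mp h3 with h | h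
  · linarith
  · linarith

theorem e2 : D.a * D.b + D.a * D.c + D.b * D.c = D.t := by
  have hab := D.lt_ab
  have h1 : D.a ^ 2 + D.a * D.b + D.b ^ 2 - D.s * (D.a + D.b) + D.t = 0 := by
    have : (D.a - D.b) * (D.a ^ 2 + D.a * D.b + D.b ^ 2 - D.s * (D.a + D.b) + D.t) = 0 := by
      linear_combination D.ha - D.hb
    rcases mul_eq_zero.mp this with h | h
    · linarith
    · exact h
  have h2 := D.e1
  have h3 : D.c = D.s - D.a - D.b := by linarith
  rw [h3]
  linear_combination (-1 : ℝ) * h1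

theorem e3 : D.a * D.b * D.c = 1 := by
  have h1 := D.e1
  have h2 := D.e2
  have h3 : D.b + D.c = D.s - D.a := by linarith
  have h4 : D.b * D.c = D.t - D.a * (D.s - D.a) := by
    rw [← h3]
    linarith
  have h5 : D.a * D.b * D.c = D.a * (D.b * D.c) := by ring
  rw [h5, h4]
  linear_combination D.ha

/-- the homogeneous factorization -/
lemma hom (n e : ℝ) : (n - D.a * e) * (n - D.b * e) * (n - D.c * e) =
    n ^ 3 - D.s * n ^ 2 * e + D.t * n * e ^ 2 - e ^ 3 := by
  linear_combination (-n ^ 2 * e) * D.e1 + n * e ^ 2 * D.e2 - e ^ 3 * D.e3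

/-- `a < 1 / (d + 1)` -/
lemma sepA : D.a * (D.d + 1) < 1 := by
  have hm := D.hm
  have hd := D.m_lt_d
  have hx := D.hx
  have h1 := D.hom 1 (D.d + 1)
  have h2 : (1:ℝ) ^ 3 - D.s * 1 ^ 2 * (D.d + 1) + D.t * 1 * (D.d + 1) ^ 2 - (D.d + 1) ^ 3 =
      1 + (D.d + 1) * (D.x - 1) := by
    rw [D.hs, D.ht, D.hr]; ring
  have h3 : 0 < 1 + (D.d + 1) * (D.x - 1) := by nlinarith
  rw [h2] at h1
  rw [← h1] at h3
  have h4 : 1 - D.b * (D.d + 1) < 0 := by
    have := D.b0
    have := D.b_pos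
    nlinarith
  have h5 : 1 - D.c * (D.d + 1) < 0 := by
    have := D.c0
    nlinarith
  linarith [sgn1 h3 h4 h5]

/-- `b > (m - 1) / (r - d + m - 1)` -/
lemma sepU : D.m - 1 < D.b * (D.r - D.d + D.m - 1) := by
  have hm := D.hm
  have hd := D.m_lt_d
  have hx := D.hx
  have hdr := D.d_lt_r
  have h1 := D.hom (D.m - 1) (D.r - D.d + D.m - 1)
  have h2 : (D.m - 1) ^ 3 - D.s * (D.m - 1) ^ 2 * (D.r - D.d + D.m - 1) +
      D.t * (D.m - 1) * (D.r - D.d + D.m - 1) ^ 2 - (D.r - D.d + D.m - 1) ^ 3 =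
      (D.r - D.d) * ((D.r - D.d + D.m - 1) * D.x - (D.m - 1) ^ 2) := by
    rw [D.hs, D.ht]
    have e : D.x = D.m * D.d - D.r := by rw [D.hr]; ring
    rw [e]
    ring
  have h3 : 0 < (D.r - D.d) * ((D.r - D.d + D.m - 1) * D.x - (D.m - 1) ^ 2) := by
    apply mul_pos (by linarith)
    nlinarith
  rw [h2] at h1
  rw [← h1] at h3
  have h4 : 0 < D.m - 1 - D.a * (D.r - D.d + D.m - 1) := by
    have h5 := D.sepA
    have h6 := D.a0
    have h7 : D.r - D.d + D.m - 1 ≤ (D.m - 1) * (D.d + 1) := by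
      rw [D.hr]; nlinarith
    have h8 := mul_le_mul_of_nonneg_left h7 h6.le
    nlinarith
  have h5 : D.m - 1 - D.c * (D.r - D.d + D.m - 1) < 0 := by
    have := D.c0
    nlinarith
  linarith [sgn2 h3 h4 h5]

/-- `b < d / r` -/
lemma sepR : D.b * D.r < D.d := by
  have hm := D.hm
  have hd := D.m_lt_d
  have hx := D.hx
  have hdr := D.d_lt_r
  have h1 := D.hom D.d D.r
  have h2 : D.d ^ 3 - D.s * D.d ^ 2 * D.r + D.t * D.d * D.r ^ 2 - D.r ^ 3 = -(D.r - D.d) := by
    have e : D.x = D.m * D.d - D.r := by rw [D.hr]; ring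
    have hrel := D.rel
    rw [e] at hrel
    rw [D.hs, D.ht]
    linear_combination (-(D.r - D.d)) * hrel
  have h3 : -(D.r - D.d) < 0 := by linarith
  rw [h2] at h1
  rw [← h1] at h3
  have h4 : 0 < D.d - D.a * D.r := by
    have h5 := D.a1
    have h6 := D.a0
    have h7 : D.r ≤ D.m * D.d := by rw [D.hr]; linarith
    have h8 := mul_le_mul_of_nonneg_left h7 h6.le
    nlinarith
  have h5 : D.d - D.c * D.r < 0 := by
    have := D.c0
    nlinarith
  linarith [sgn3 h3 h4 h5]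

/-- `c > r + m` -/
lemma sepC : D.r + D.m < D.c := by
  have hm := D.hm
  have hd := D.m_lt_d
  have hx := D.hx
  have hdr := D.d_lt_r
  have h1 := D.hom (D.r + D.m) 1
  have h2 : (D.r + D.m) ^ 3 - D.s * (D.r + D.m) ^ 2 * 1 + D.t * (D.r + D.m) * 1 ^ 2 - 1 ^ 3 =
      -((D.r + D.m) * (D.r - D.d - 1)) - 1 := by
    rw [D.hs, D.ht]
    ring
  have h3 : -((D.r + D.m) * (D.r - D.d - 1)) - 1 < 0 := by
    have := mul_nonneg (by linarith : (0:ℝ) ≤ D.r + D.m) (by linarith : (0:ℝ) ≤ D.r - D.d - 1)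
    linarith
  rw [h2] at h1
  rw [← h1] at h3
  have h4 : 0 < D.r + D.m - D.a * 1 := by linarith [D.a_lt]
  have h5 : 0 < D.r + D.m - D.b * 1 := by linarith [D.b1]
  linarith [sgn4 h3 h4 h5]

/-! ### positivity of the dual coordinates -/

lemma U1 : 0 < (D.s - D.d - 1) - (D.b + D.c) * 1 + D.b * D.c * 1 := by
  have h1 : (D.s - D.d - 1) - (D.b + D.c) * 1 + D.b * D.c * 1 =
      D.a ^ 2 + (D.m - (D.s - 1) * D.a) := by
    have e1 := D.e1
    have e2 := D.e2
    have ht := D.ht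
    linear_combination (-D.a) * e1 + (-1) * e1 + e2 + ht
  rw [h1]
  have h2 : (D.s - 1) * D.a < D.m := by
    have h3 := D.sepA
    have h4 : D.s - 1 ≤ D.m * (D.d + 1) := by
      have := D.hx
      have := D.hm
      rw [D.hs, D.hr]; linarith
    have h5 := mul_le_mul_of_nonneg_right h4 D.a0.le
    have h6 : D.m * (D.d + 1) * D.a = D.m * (D.a * (D.d + 1)) := by ring
    have h7 : D.m * (D.a * (D.d + 1)) < D.m * 1 :=
      mul_lt_mul_of_pos_left h3 (by linarith [D.hm])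
    linarith
  have := sq_nonneg D.a
  linarith

lemma U2 : (D.s - D.d - 1) - (D.a + D.c) * 1 + D.a * D.c * 1 < 0 := by
  have h1 : ((D.s - D.d - 1) - (D.a + D.c) * 1 + D.a * D.c * 1) * (1 - D.b) =
      (D.m - 1) - D.b * (D.r - D.d + D.m - 1) := by
    have e1 := D.e1
    have e2 := D.e2
    have ht := D.ht
    have hs := D.hs
    have hb := D.hb
    have h2 : (D.s - D.d - 1) - (D.a + D.c) * 1 + D.a * D.c * 1 =
        D.b ^ 2 - (D.s - 1) * D.b + D.m := by
      linear_combination (-D.b) * e1 + (-1) * e1 + e2 + ht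
    rw [h2]
    linear_combination (-1) * hb + D.b * ht - D.b * hs
  have h3 := D.sepU
  have h4 := D.b1
  have h5 : ((D.s - D.d - 1) - (D.a + D.c) * 1 + D.a * D.c * 1) * (1 - D.b) < 0 := by
    rw [h1]; linarith
  by_contra hcon
  push Not at hcon
  have := mul_nonneg hcon (by linarith : (0:ℝ) ≤ 1 - D.b)
  linarith

lemma U3 : 0 < (D.s - D.d - 1) - (D.a + D.b) * 1 + D.a * D.b * 1 := by
  have h2 : (D.s - D.d - 1) - (D.a + D.b) * 1 + D.a * D.b * 1 =
      D.c * (D.c - (D.s - 1)) + D.m := by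
    have e1 := D.e1
    have e2 := D.e2
    have ht := D.ht
    linear_combination (-D.c) * e1 + (-1) * e1 + e2 + ht
  rw [h2]
  have h3 := D.sepC
  have h4 := D.c0
  have hs := D.hs
  have := mul_pos (by linarith : (0:ℝ) < D.c) (by linarith : (0:ℝ) < D.c - (D.s - 1))
  linarith [D.hm]

lemma D1 : 0 < (D.d + D.x) - (D.b + D.c) * D.d + D.b * D.c * D.r := by
  have h1 : ((D.d + D.x) - (D.b + D.c) * D.d + D.b * D.c * D.r) * D.a =
      D.d * D.a ^ 2 + D.r * (1 - D.a * (D.d + 1)) := by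
    have e1 := D.e1
    have e3 := D.e3
    have hs := D.hs
    have hr := D.hr
    linear_combination (-D.a * D.d) * e1 + D.r * e3 - D.a * D.d * hs + D.a * hr
  have h2 := D.sepA
  have h3 := D.a0
  have h4 := D.d_lt_r
  have h5 := D.m_lt_d
  have h6 := D.hm
  have h7 : 0 < ((D.d + D.x) - (D.b + D.c) * D.d + D.b * D.c * D.r) * D.a := by
    rw [h1]
    have := mul_pos (by linarith : (0:ℝ) < D.r) (by linarith : 0 < 1 - D.a * (D.d + 1))
    have := mul_nonneg (by linarith : (0:ℝ) ≤ D.d) (sq_nonneg D.a)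
    linarith
  exact (pos_iff_pos_of_mul_pos h7).mpr h3

lemma D2 : (D.d + D.x) - (D.a + D.c) * D.d + D.a * D.c * D.r < 0 := by
  have h1 : ((D.d + D.x) - (D.a + D.c) * D.d + D.a * D.c * D.r) * D.b =
      D.r - D.b * (D.r * (D.d + 1) - D.d * D.b) := by
    have e1 := D.e1
    have e3 := D.e3
    have hs := D.hs
    have hr := D.hr
    linear_combination (-D.b * D.d) * e1 + D.r * e3 - D.b * D.d * hs + D.b * hr
  have h2 := D.b0
  have h3 := D.b1
  have h4 := D.d_lt_r
  have h5 := D.m_lt_d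
  have h6 := D.hm
  have hb := D.b_pos
  have h7 : D.r < D.b * (D.r * (D.d + 1) - D.d * D.b) := by
    have h8 : D.m * D.r ≤ D.r * (D.d + 1) - D.d := by nlinarith
    have h9 : D.m * D.r < D.r * (D.d + 1) - D.d * D.b := by nlinarith
    have h10 := mul_lt_mul_of_pos_left h9 hb
    have h11 : D.b * (D.m * D.r) = (D.m * D.b) * D.r := by ring
    have h12 : 1 * D.r < (D.m * D.b) * D.r := mul_lt_mul_of_pos_right h2 (by linarith)
    linarith
  by_contra hcon
  push Not at hcon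
  have := mul_nonneg hcon hb.le
  linarith

lemma D3 : 0 < (D.d + D.x) - (D.a + D.b) * D.d + D.a * D.b * D.r := by
  have h1 : ((D.d + D.x) - (D.a + D.b) * D.d + D.a * D.b * D.r) * D.c =
      D.r + D.c * (D.d * D.c - D.r * (D.d + 1)) := by
    have e1 := D.e1
    have e3 := D.e3
    have hs := D.hs
    have hr := D.hr
    linear_combination (-D.c * D.d) * e1 + D.r * e3 - D.c * D.d * hs + D.c * hr
  have h2 := D.sepC
  have h4 := D.d_lt_r
  have h5 := D.m_lt_d
  have h6 := D.hm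
  have h9 := D.hx
  have hr := D.hr
  have h7 : 0 < ((D.d + D.x) - (D.a + D.b) * D.d + D.a * D.b * D.r) * D.c := by
    rw [h1]
    have h8 : 0 < D.d * D.c - D.r * (D.d + 1) := by
      have := mul_lt_mul_of_pos_left h2 (by linarith : (0:ℝ) < D.d)
      nlinarith
    have := mul_pos D.c_pos h8
    linarith
  exact (pos_iff_pos_of_mul_pos h7).mpr D.c_pos

/-! ### the second unit -/

/-- the conjugates of the second unit -/
noncomputable def al (y : ℝ) : ℝ := y ^ 2 - (D.s - 1) * y + (D.d + 1)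

lemma al_mul {y : ℝ} (hy : y ^ 3 - D.s * y ^ 2 + D.t * y - 1 = 0) :
    D.al y * (y - 1) = D.r * y - D.d := by
  unfold al
  have hs := D.hs
  have ht := D.ht
  linear_combination hy - y * ht + y * hs

lemma al_a : 1 < D.al D.a := by
  have h1 := D.al_mul D.ha
  have h2 := D.a_lt
  have h3 := D.sepA
  have h4 := D.r_le
  have h5 := D.md_le
  have h6 := D.a0
  have h7 := D.m_lt_d
  have h8 := D.hm
  have h9 : 0 < (D.al D.a - 1) * (1 - D.a) := by
    have e : (D.al D.a - 1) * (1 - D.a) = (D.d - 1) - (D.r - 1) * D.a := by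
      linear_combination (-1) * h1
    rw [e]
    have h10 : D.r - 1 ≤ (D.d - 1) * (D.d + 1) := by nlinarith
    have h11 := mul_le_mul_of_nonneg_right h10 h6.le
    have h12 : (D.d - 1) * (D.d + 1) * D.a = (D.d - 1) * (D.a * (D.d + 1)) := by ring
    have h13 : (D.d - 1) * (D.a * (D.d + 1)) < (D.d - 1) * 1 :=
      mul_lt_mul_of_pos_left h3 (by linarith)
    linarith
  have := (pos_iff_pos_of_mul_pos h9).mpr (by linarith)
  linarith

lemma al_b : 0 < D.al D.b := by
  have h1 := D.al_mul D.hb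
  have h2 := D.b1
  have h3 := D.sepR
  have h9 : 0 < D.al D.b * (1 - D.b) := by nlinarith
  exact (pos_iff_pos_of_mul_pos h9).mpr (by linarith)

lemma al_c : 1 < D.al D.c := by
  have h1 := D.al_mul D.hc
  have h2 := D.c0
  have h4 := D.d_lt_r
  have h7 := D.m_lt_d
  have h8 := D.hm
  have h9 : 0 < (D.al D.c - 1) * (D.c - 1) := by
    have e : (D.al D.c - 1) * (D.c - 1) = (D.r - 1) * D.c - (D.d - 1) := by
      linear_combination h1
    rw [e]
    have : (D.r - 1) * 1 < (D.r - 1) * D.c := mul_lt_mul_of_pos_left h2 (by linarith)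
    linarith
  have := (pos_iff_pos_of_mul_pos h9).mpr (by linarith)
  linarith

lemma al_lt {y : ℝ} (hy : y ^ 3 - D.s * y ^ 2 + D.t * y - 1 = 0) (h0 : 0 < y)
    (h1 : 1 < D.m * y) : D.al y < y := by
  have ht := D.ht
  have h2 : (D.al y - y) * y = 1 - D.m * y := by
    unfold al
    linear_combination hy - y * ht
  by_contra hcon
  push Not at hcon
  have := mul_nonneg (by linarith : (0:ℝ) ≤ D.al y - y) h0.le
  linarith

lemma al_b_lt : D.al D.b < D.b := D.al_lt D.hb D.b_pos D.b0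

lemma al_c_lt : D.al D.c < D.c := by
  apply D.al_lt D.hc D.c_pos
  have := D.c0
  have := D.hm
  nlinarith

end Dat

end Pool.Agent.KS6_21.S
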