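import Pool.Agent.KS6_21.S.Forms

set_option autoImplicit false

namespace Pool.Agent.KS6_21.S

open Set Matrix Pool.Agent.H476R2

/-- Some linear map given by an invertible rational matrix carries the union of the three planes
of `F` onto the union of the three planes of `F'`. -/
def RatEquivalent (F F' : Planes) : Prop :=
  ∃ g : GL (Fin 3) ℚ, ∀ x : V3, (∃ i, F.form i x = 0) ↔
    ∃ i, F'.form i ((g.1.map (Rat.castHom ℝ)).mulVec x) = 0

namespace Par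

open Rts

lemma prod_perm {S : Type} [CommRing S] {π : Fin 3 → Fin 3} (hπ : Function.Bijective π)
    (f : Fin 3 → S) : ∏ i, f (π i) = ∏ i, f i :=
  Function.Bijective.prod_comp hπ f

/-- equivalent members have the same discriminant -/
theorem disc_eq_of_equivalent {p p' : Par} (R : Rts p) (R' : Rts p')
    (h : Equivalent R.sys.planes R'.sys.planes) : disc p' = disc p := by
  obtain ⟨g, hg⟩ := h
  have hact : ∀ x, act g x = actM g.1 x := fun x => rfl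
  have hinv : ∀ x, actM (g⁻¹).1 (actM g.1 x) = x := by
    intro x
    rw [← actM_mul]
    have : (g⁻¹).1 * g.1 = 1 := g.inv_mul
    rw [this]
    simp [actM]
  have hinv' : ∀ x, actM g.1 (actM (g⁻¹).1 x) = x := by
    intro x
    rw [← actM_mul]
    have : g.1 * (g⁻¹).1 = 1 := g.mul_inv
    rw [this]
    simp [actM]
  have key : ∀ x, (∀ i, R.sys.L i x ≠ 0) ↔ ∀ i, R'.sys.L i (actM g.1 x) ≠ 0 := by
    intro x
    rw [← R.sys.cover R.norm_ge, ← R'.sys.cover R'.norm_ge]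
    constructor
    · rintro ⟨t, ht, hx⟩
      refine ⟨t, ht, ?_⟩
      rw [← map_smul, ← hact, ← hg]
      exact ⟨_, hx, rfl⟩
    · rintro ⟨t, ht, hx⟩
      refine ⟨t, ht, ?_⟩
      rw [← map_smul, ← hg] at hx
      obtain ⟨y, hy, hxy⟩ := hx
      have h1 : y = t • x := by
        rw [← hinv y, ← hinv (t • x), ← hact y, hxy]
      rw [← h1]
      exact hy
  obtain ⟨π, c, hπ, hc⟩ := forms_of_planes R.sys R'.sys (actM g.1) (actM (g⁻¹).1) hinv' key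
  have hdet := det_of_forms R.sys R'.sys (g.1.map (Int.castRingHom ℝ)) π c hπ
    (fun i x => hc i x)
  have hic : ∀ (M : Matrix (Fin 3) (Fin 3) ℤ) (z : Fin 3 → ℤ),
      actM M (ic z) = ic (M.mulVec z) := by
    intro M z
    funext i
    simp [actM, ic, Matrix.mulVec, dotProduct]
  -- the product of the scalars
  have hprod : ∀ z : Fin 3 → ℤ, ((nfv (p'.m : ℤ) p'.x p'.d p'.r (g.1.mulVec z) : ℤ) : ℝ) =
      (∏ i, c i) * ((nfv (p.m : ℤ) p.x p.d p.r z : ℤ) : ℝ) := by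
    intro z
    rw [← R.prod_int, ← R'.prod_int, ← hic, ← Finset.prod_mul_distrib]
    rw [← prod_perm hπ (fun i => R'.L i (actM g.1 (ic z)))]
    exact Finset.prod_congr rfl fun i _ => hc i (ic z)
  obtain ⟨n, hn⟩ : ∃ n : ℤ, n = nfv (p'.m : ℤ) p'.x p'.d p'.r (g.1.mulVec ![1, 0, 0]) :=
    ⟨_, rfl⟩
  have hcn : ∏ i, c i = n := by
    have := hprod ![1, 0, 0]
    rw [nfv_one, ← hn] at this
    rw [this]
    simp
  have hginv : ∀ z : Fin 3 → ℤ, g.1.mulVec ((g⁻¹).1.mulVec z) = z := by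
    intro z
    rw [Matrix.mulVec_mulVec]
    have : g.1 * (g⁻¹).1 = 1 := g.mul_inv
    rw [this, Matrix.one_mulVec]
  have hunit : IsUnit n := by
    have h3 := hprod ((g⁻¹).1.mulVec ![1, 0, 0])
    rw [hginv, nfv_one, hcn] at h3
    have h4 : (1 : ℤ) = n * nfv (p.m : ℤ) p.x p.d p.r ((g⁻¹).1.mulVec ![1, 0, 0]) := by
      exact_mod_cast h3
    exact IsUnit.of_mul_eq_one _ h4.symm
  have hn2 : (n : ℝ) ^ 2 = 1 := by
    rcases Int.isUnit_iff.mp hunit with h | h <;> simp [h]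
  have hg2 : ((g.1.map (Int.castRingHom ℝ)).det) ^ 2 = 1 := by
    have h1 : (g.1.map (Int.castRingHom ℝ)).det = ((g.1.det : ℤ) : ℝ) := by
      have := RingHom.map_det (Int.castRingHom ℝ) g.1
      rw [RingHom.mapMatrix_apply] at this
      rw [← this]
      rfl
    have h2 : IsUnit g.1.det := (Matrix.isUnit_iff_isUnit_det _).mp g.isUnit
    rw [h1]
    rcases Int.isUnit_iff.mp h2 with h | h <;> simp [h]
  have e1 : (coef R.sys.L).det ^ 2 = (disc p : ℝ) := R.det_sq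
  have e2 : (coef R'.sys.L).det ^ 2 = (disc p' : ℝ) := R'.det_sq
  rw [hcn, hn2, hg2, e1, e2, mul_one, one_mul] at hdet
  exact_mod_cast hdet

/-- rationally equivalent members have discriminants with square product -/
theorem isSquare_of_ratEquivalent {p p' : Par} (R : Rts p) (R' : Rts p')
    (h : RatEquivalent R.sys.planes R'.sys.planes) : IsSquare (disc p * disc p') := by
  obtain ⟨g, hg⟩ := h
  obtain ⟨M, hM⟩ : ∃ M : Matrix (Fin 3) (Fin 3) ℝ, M = g.1.map (Rat.castHom ℝ) := ⟨_, rfl⟩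
  rw [← hM] at hg
  have hMi : M * (g⁻¹).1.map (Rat.castHom ℝ) = 1 := by
    rw [hM, ← Matrix.map_mul]
    have : g.1 * (g⁻¹).1 = 1 := g.mul_inv
    rw [this, Matrix.map_one _ (map_zero _) (map_one _)]
  have key : ∀ x, (∀ i, R.sys.L i x ≠ 0) ↔ ∀ i, R'.sys.L i (M.mulVecLin x) ≠ 0 := by
    intro x
    have h1 := hg x
    constructor
    · intro h2 i h3
      obtain ⟨j, hj⟩ := h1.mpr ⟨i, h3⟩
      exact h2 j hj
    · intro h2 i h3
      obtain ⟨j, hj⟩ := h1.mp ⟨i, h3⟩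
      exact h2 j hj
  have hGG : ∀ x, M.mulVecLin (((g⁻¹).1.map (Rat.castHom ℝ)).mulVecLin x) = x := by
    intro x
    rw [Matrix.mulVecLin_apply, Matrix.mulVecLin_apply, Matrix.mulVec_mulVec, hMi,
      Matrix.one_mulVec]
  obtain ⟨π, c, hπ, hc⟩ := forms_of_planes R.sys R'.sys _ _ hGG key
  have hdet := det_of_forms R.sys R'.sys M π c hπ (fun i x => hc i x)
  -- the product of the scalars is rational
  obtain ⟨n, hn⟩ : ∃ n : ℚ, n = nfv (p'.m : ℚ) p'.x p'.d p'.r (g.1.mulVec ![1, 0, 0]) :=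
    ⟨_, rfl⟩
  have hcn : ∏ i, c i = n := by
    have h1 : ∏ i, R'.sys.L (π i) (M.mulVecLin (ic ![1, 0, 0])) =
        ∏ i, c i * R.sys.L i (ic ![1, 0, 0]) := Finset.prod_congr rfl fun i _ => hc i _
    have h2 : ∀ i, R.sys.L i (ic ![1, 0, 0]) = 1 := R.sys.Lv
    simp only [h2, mul_one] at h1
    rw [← h1, prod_perm hπ (fun i => R'.sys.L i (M.mulVecLin (ic ![1, 0, 0])))]
    have h3 : M.mulVecLin (ic ![1, 0, 0]) = fun j => (((g.1.mulVec ![1, 0, 0]) j : ℚ) : ℝ) := by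
      rw [hM, Matrix.mulVecLin_apply]
      funext j
      simp [Matrix.mulVec, dotProduct, Fin.sum_univ_three, ic]
    rw [h3, hn]
    exact R'.prod_rat _
  have hdM : M.det = ((g.1.det : ℚ) : ℝ) := by
    have := RingHom.map_det (Rat.castHom ℝ) g.1
    rw [RingHom.mapMatrix_apply] at this
    rw [hM, ← this]
    rfl
  have hq : g.1.det ≠ 0 := by
    have h2 : IsUnit g.1.det := (Matrix.isUnit_iff_isUnit_det _).mp g.isUnit
    exact h2.ne_zero
  have e1 : (coef R.sys.L).det ^ 2 = (disc p : ℝ) := R.det_sq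
  have e2 : (coef R'.sys.L).det ^ 2 = (disc p' : ℝ) := R'.det_sq
  rw [hcn, hdM, e1, e2] at hdet
  have h5 : (disc p' : ℚ) * g.1.det ^ 2 = n ^ 2 * (disc p : ℚ) := by exact_mod_cast hdet
  rw [← Rat.isSquare_intCast_iff]
  refine ⟨(disc p : ℚ) * n / g.1.det, ?_⟩
  push_cast
  field_simp
  linear_combination (disc p : ℚ) * h5

/-! ### the discriminants -/

/-- the basic member with distance `d` -/
def base (d : ℕ) (hd : 3 ≤ d) : Par where
  m := 2
  x := d - 1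
  d := d
  hm := le_rfl
  hx := by omega
  hd := by omega
  rel := by
    obtain ⟨e, rfl⟩ : ∃ e, d = e + 1 := ⟨d - 1, by omega⟩
    rw [Nat.add_sub_cancel]
    ring

lemma disc_base (d : ℕ) (hd : 3 ≤ d) : disc (base d hd) =
    (d : ℤ) ^ 4 + 6 * (d : ℤ) ^ 3 + 7 * (d : ℤ) ^ 2 - 6 * d - 31 := by
  have h : ((d - 1 : ℕ) : ℤ) = (d : ℤ) - 1 := by
    rw [Nat.cast_sub (by omega)]
    simp
  simp only [disc, s, t, r, base, h, Nat.cast_ofNat]
  ring

lemma d_ge (p : Par) : (p.m : ℤ) ^ 2 - 1 ≤ p.d := by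
  have hm : (2 : ℤ) ≤ p.m := by exact_mod_cast p.hm
  have hx : (p.m : ℤ) ≤ p.x := by exact_mod_cast p.hx
  have hd : (p.x : ℤ) + 1 ≤ p.d := by exact_mod_cast p.hd
  have hrel := p.relZ
  have h1 : ((p.m : ℤ) - p.x) * (p.m + p.x - p.m * p.d) =
      ((p.d : ℤ) - 1) * (p.d + 1 - p.m ^ 2) := by
    linear_combination (-1) * hrel
  have h2 : 0 ≤ ((p.m : ℤ) - p.x) * (p.m + p.x - p.m * p.d) := by
    apply mul_nonneg_of_nonpos_of_nonpos
    · linarith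
    · nlinarith
  rw [h1] at h2
  have h3 : 0 ≤ (p.d : ℤ) + 1 - p.m ^ 2 := int_nonneg (show (0 : ℤ) < (p.d : ℤ) - 1 by linarith) h2
  linarith

/-- the discriminant of the other members is larger -/
theorem disc_lt (p : Par) (hm3 : 3 ≤ p.m) :
    (p.d : ℤ) ^ 4 + 6 * (p.d : ℤ) ^ 3 + 7 * (p.d : ℤ) ^ 2 - 6 * p.d - 31 < disc p := by
  have hm : (3 : ℤ) ≤ p.m := by exact_mod_cast hm3
  have hx : (p.m : ℤ) ≤ p.x := by exact_mod_cast p.hx
  have hd : (p.x : ℤ) + 1 ≤ p.d := by exact_mod_cast p.hd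
  have hdm := p.d_ge
  obtain ⟨k, hk⟩ : ∃ k : ℤ, k = p.m - 3 := ⟨_, rfl⟩
  obtain ⟨e, he⟩ : ∃ e : ℤ, e = p.d - (p.m ^ 2 - 1) := ⟨_, rfl⟩
  have hk0 : 0 ≤ k := by linarith
  have he0 : 0 ≤ e := by linarith
  have ht : p.t = p.d + p.m + 1 := rfl
  have hs : p.s = p.m * p.d - p.x + p.m + 1 := rfl
  have hW : p.t ^ 2 - 4 * p.s = ((p.d : ℤ) - p.m + 1) ^ 2 + 4 * p.x - 4 := by
    rw [ht, hs]; ring
  have hs0 : ((p.m : ℤ) - 1) * p.d + p.m + 2 ≤ p.s := by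
    rw [hs]; linarith
  have hs00 : 0 ≤ ((p.m : ℤ) - 1) * p.d + p.m + 2 := by nlinarith
  have ht0 : 0 ≤ p.t := by rw [ht]; linarith
  have hdisc : disc p = p.s ^ 2 * (p.t ^ 2 - 4 * p.s) - 4 * p.t ^ 3 + 18 * p.s * p.t - 27 := by
    unfold disc; ring
  have h1 : (((p.m : ℤ) - 1) * p.d + p.m + 2) ^ 2 * (((p.d : ℤ) - p.m + 1) ^ 2 + 8) ≤
      p.s ^ 2 * (p.t ^ 2 - 4 * p.s) := by
    rw [hW]
    apply mul_le_mul
    · exact pow_le_pow_left₀ hs00 hs0 2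
    · linarith
    · positivity
    · positivity
  have h2 : 18 * (((p.m : ℤ) - 1) * p.d + p.m + 2) * p.t ≤ 18 * p.s * p.t := by
    apply mul_le_mul_of_nonneg_right _ ht0
    linarith
  have h3 : (p.d : ℤ) ^ 4 + 6 * (p.d : ℤ) ^ 3 + 7 * (p.d : ℤ) ^ 2 - 6 * p.d - 31 <
      (((p.m : ℤ) - 1) * p.d + p.m + 2) ^ 2 * (((p.d : ℤ) - p.m + 1) ^ 2 + 8) - 4 * p.t ^ 3 +
      18 * (((p.m : ℤ) - 1) * p.d + p.m + 2) * p.t - 27 := by
    have em : (p.m : ℤ) = k + 3 := by linarith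
    have ed : (p.d : ℤ) = (k + 3) ^ 2 - 1 + e := by rw [← em]; linarith
    rw [ht, ed, em]
    rw [← sub_pos]
    have h4 : ∀ k e : ℤ, (((k + 3) - 1) * ((k + 3) ^ 2 - 1 + e) + (k + 3) + 2) ^ 2 *
        (((k + 3) ^ 2 - 1 + e - (k + 3) + 1) ^ 2 + 8) - 4 * ((k + 3) ^ 2 - 1 + e + (k + 3) + 1) ^ 3 +
        18 * (((k + 3) - 1) * ((k + 3) ^ 2 - 1 + e) + (k + 3) + 2) *
        ((k + 3) ^ 2 - 1 + e + (k + 3) + 1) - 27 - (((k + 3) ^ 2 - 1 + e) ^ 4 +
        6 * ((k + 3) ^ 2 - 1 + e) ^ 3 + 7 * ((k + 3) ^ 2 - 1 + e) ^ 2 -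
        6 * ((k + 3) ^ 2 - 1 + e) - 31) =
        9464 + 4764 * e + 982 * e ^ 2 + 90 * e ^ 3 + 3 * e ^ 4 + 40518 * k + 17988 * k * e +
        2900 * k * e ^ 2 + 190 * k * e ^ 3 + 4 * k * e ^ 4 + 76827 * k ^ 2 +
        27206 * k ^ 2 * e + 3183 * k ^ 2 * e ^ 2 + 130 * k ^ 2 * e ^ 3 + k ^ 2 * e ^ 4 +
        83882 * k ^ 3 + 22528 * k ^ 3 * e + 1786 * k ^ 3 * e ^ 2 + 38 * k ^ 3 * e ^ 3 +
        58957 * k ^ 4 + 11418 * k ^ 4 * e + 553 * k ^ 4 * e ^ 2 + 4 * k ^ 4 * e ^ 3 +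
        28088 * k ^ 5 + 3662 * k ^ 5 * e + 90 * k ^ 5 * e ^ 2 + 9225 * k ^ 6 +
        728 * k ^ 6 * e + 6 * k ^ 6 * e ^ 2 + 2066 * k ^ 7 + 82 * k ^ 7 * e +
        302 * k ^ 8 + 4 * k ^ 8 * e + 26 * k ^ 9 + k ^ 10 := by
      intro k e
      ring
    rw [h4]
    positivity
  rw [hdisc]
  linarith

theorem not_equivalent (p : Par) (hm3 : 3 ≤ p.m) (hd : 3 ≤ p.d) (R : Rts p)
    (R' : Rts (base p.d hd)) : ¬ Equivalent R'.sys.planes R.sys.planes := by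
  intro h
  have h1 := disc_eq_of_equivalent R' R h
  have h2 := p.disc_lt hm3
  rw [h1, disc_base] at h2
  exact lt_irrefl _ h2

/-- the congruence modulo three -/
theorem disc_mod (p : Par) (hx : p.x = p.m) (hm : p.m % 3 ≠ 2) :
    ((((p.d : ℤ) ^ 4 + 6 * (p.d : ℤ) ^ 3 + 7 * (p.d : ℤ) ^ 2 - 6 * p.d - 31) * disc p : ℤ) :
      ZMod 3) = 2 := by
  have hd : (p.d : ℤ) = p.m ^ 2 - 1 := by
    have hrel := p.relZ
    rw [hx] at hrel
    have hmp : (2 : ℤ) ≤ p.m := by exact_mod_cast p.hm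
    have hdm := p.m_lt_d
    have h1 : ((p.d : ℤ) - 1) * (p.d + 1 - p.m ^ 2) = 0 := by
      linear_combination hrel
    rcases mul_eq_zero.mp h1 with h | h
    · linarith
    · linarith
  have hr : p.r = p.m * (p.m ^ 2 - 1) - p.m := by
    unfold r
    rw [hd, hx]
  have hs : p.s = p.m * (p.m ^ 2 - 1) + 1 := by
    unfold s
    rw [hr]
    ring
  have ht : p.t = p.m ^ 2 + p.m := by
    unfold t
    rw [hd]
    ring
  rw [disc, hs, ht, hd]
  push_cast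
  have h3 : ((p.m : ℕ) : ZMod 3) ≠ 2 := by
    intro h
    have h4 : ((p.m : ℕ) : ZMod 3) = ((2 : ℕ) : ZMod 3) := by rw [h]; rfl
    rw [ZMod.natCast_eq_natCast_iff'] at h4
    exact hm h4
  revert h3
  generalize ((p.m : ℕ) : ZMod 3) = y
  revert y
  decide

theorem not_ratEquivalent (p : Par) (hx : p.x = p.m) (hm : p.m % 3 ≠ 2) (hd : 3 ≤ p.d)
    (R : Rts p) (R' : Rts (base p.d hd)) : ¬ RatEquivalent R'.sys.planes R.sys.planes := by
  intro h
  obtain ⟨q, hq⟩ := isSquare_of_ratEquivalent R' R h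
  have h1 := p.disc_mod hx hm
  rw [← disc_base p.d hd, hq] at h1
  push_cast at h1
  revert h1
  generalize ((q : ℤ) : ZMod 3) = y
  revert y
  decide

end Par

end Pool.Agent.KS6_21.S
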