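import Pool.Agent.KS6_21.S.Sys2

set_option autoImplicit false

namespace Pool.Agent.KS6_21.S

open Set Matrix Pool.Agent.H476R2

/-- A linear isomorphism matching the planes of two systems matches the forms up to scalars. -/
theorem forms_of_planes (Y Y' : Sys) (G G' : V3 →ₗ[ℝ] V3) (hGG' : ∀ x, G (G' x) = x)
    (key : ∀ x, (∀ i, Y.L i x ≠ 0) ↔ ∀ i, Y'.L i (G x) ≠ 0) :
    ∃ (π : Fin 3 → Fin 3) (c : Fin 3 → ℝ), Function.Bijective π ∧
      ∀ i x, Y'.L (π i) (G x) = c i * Y.L i x := by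
  have hne : ∀ i, Y.L i ≠ 0 := fun i => Y.ind.ne_zero i
  have h1 : ∀ i, ∃ j, LinearMap.ker (Y.L i) ≤ LinearMap.ker ((Y'.L j).comp G) := by
    intro i
    apply ker_le_of_union
    intro x hx
    by_contra hcon
    push Not at hcon
    exact (key x).mpr hcon i hx
  choose π hπ using h1
  have h2 : ∀ i, ∃ c : ℝ, (Y'.L (π i)).comp G = c • Y.L i := fun i =>
    exists_smul_of_ker (hne i) (hπ i)
  choose c hc using h2
  have hπinj : Function.Injective π := by
    intro i i' hii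
    by_contra hne'
    have h3 : c i • Y.L i = c i' • Y.L i' := by rw [← hc, ← hc, hii]
    have hci : c i ≠ 0 := by
      intro h0
      have h4 := hc i
      rw [h0, zero_smul] at h4
      have h5 : Y'.L (π i) = 0 := by
        apply LinearMap.ext
        intro x
        have h6 := LinearMap.congr_fun h4 (G' x)
        rw [LinearMap.comp_apply, hGG'] at h6
        exact h6
      exact Y'.ind.ne_zero _ h5
    have h4 := Y.ind
    rw [Fintype.linearIndependent_iff] at h4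
    have h5 := h4 (fun k => if k = i then c i else if k = i' then - c i' else 0) (by
      rw [Finset.sum_eq_add i i' hne']
      · simp only [if_true, if_neg (Ne.symm hne')]
        rw [h3, neg_smul, add_neg_cancel]
      · rintro k _ ⟨hk1, hk2⟩
        simp [hk1, hk2]
      · intro h; exact absurd (Finset.mem_univ _) h
      · intro h; exact absurd (Finset.mem_univ _) h) i
    simp at h5
    exact hci h5
  refine ⟨π, c, Finite.injective_iff_bijective.mp hπinj, fun i x => ?_⟩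
  have := LinearMap.congr_fun (hc i) x
  simpa using this

/-- the coefficient matrix of three forms -/
noncomputable def coef (L : Fin 3 → (V3 →ₗ[ℝ] ℝ)) : Matrix (Fin 3) (Fin 3) ℝ :=
  fun i j => L i (Pi.single j 1)

lemma coef_apply (L : Fin 3 → (V3 →ₗ[ℝ] ℝ)) (i : Fin 3) (x : V3) :
    L i x = ∑ j, coef L i j * x j := by
  conv_lhs => rw [show x = ∑ j, x j • (Pi.single j 1 : V3) by
    funext k
    simp [Pi.single_apply]]
  rw [map_sum]
  refine Finset.sum_congr rfl fun j _ => ?_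
  rw [map_smul, smul_eq_mul, coef, mul_comm]

/-- the relation of the determinants -/
theorem det_of_forms (Y Y' : Sys) (M : Matrix (Fin 3) (Fin 3) ℝ) (π : Fin 3 → Fin 3)
    (c : Fin 3 → ℝ) (hπ : Function.Bijective π)
    (h : ∀ i x, Y'.L (π i) (M.mulVec x) = c i * Y.L i x) :
    (coef Y'.L).det ^ 2 * M.det ^ 2 = (∏ i, c i) ^ 2 * (coef Y.L).det ^ 2 := by
  obtain ⟨σ, hσ⟩ : ∃ σ : Equiv.Perm (Fin 3), ∀ i, σ i = π i :=
    ⟨Equiv.ofBijective π hπ, fun i => rfl⟩
  have h1 : (coef Y'.L).submatrix σ id * M = Matrix.diagonal c * coef Y.L := by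
    ext i j
    rw [Matrix.diagonal_mul, Matrix.mul_apply]
    have h2 := h i (Pi.single j 1)
    rw [coef_apply] at h2
    show ∑ k, coef Y'.L (σ i) k * M k j = c i * Y.L i (Pi.single j 1)
    rw [← h2, hσ]
    refine Finset.sum_congr rfl fun k _ => ?_
    congr 1
    simp
  have h2 := congrArg Matrix.det h1
  rw [Matrix.det_mul, Matrix.det_mul, Matrix.det_diagonal, Matrix.det_permute] at h2
  have h3 : ((Equiv.Perm.sign σ : ℤ) : ℝ) ^ 2 = 1 := by
    rcases Int.units_eq_one_or (Equiv.Perm.sign σ) with h | h <;> simp [h]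
  calc (coef Y'.L).det ^ 2 * M.det ^ 2
      = (((Equiv.Perm.sign σ : ℤ) : ℝ) * (coef Y'.L).det * M.det) ^ 2 := by
        rw [mul_pow, mul_pow, h3, one_mul]
    _ = _ := by rw [h2, mul_pow]

/-- the norm form -/
def nfv {S : Type} [CommRing S] (m x d r : S) (z : Fin 3 → S) : S :=
  (!![z 0, z 1 * (x - d) - d * z 2, -(d * z 1) - (d + 1) * z 2;
    z 1, z 0 + (d + 2 - m) * z 1 + z 2, z 1 + z 2;
    z 2, (r - d) * z 1 + r * z 2, z 0 + r * z 1 + (r + m) * z 2] : Matrix (Fin 3) (Fin 3) S).det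

lemma nfv_map {S T : Type} [CommRing S] [CommRing T] (f : S →+* T) (m x d r : S)
    (z : Fin 3 → S) : nfv (f m) (f x) (f d) (f r) (fun i => f (z i)) = f (nfv m x d r z) := by
  unfold nfv
  rw [RingHom.map_det]
  congr 1
  ext i j
  fin_cases i <;> fin_cases j <;> simp [map_ofNat]

lemma nfv_one {S : Type} [CommRing S] (m x d r : S) : nfv m x d r ![1, 0, 0] = 1 := by
  unfold nfv
  simp [Matrix.det_fin_three]

namespace Par

namespace Rts

variable {p : Par} (R : Rts p)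

lemma i1 (i : Fin 3) : R.al i * R.be i = -R.D.d + R.al i + R.D.r * R.be i := by
  have h1 := R.D.al_mul (R.root i)
  have h2 : R.al i = R.D.al (R.be i) := rfl
  rw [← h2] at h1
  linear_combination h1

lemma i3 (i : Fin 3) : R.be i ^ 2 = -(R.D.d + 1) + R.al i + (R.D.r + R.D.m) * R.be i := by
  have h3 : R.al i = R.be i ^ 2 - (R.D.s - 1) * R.be i + (R.D.d + 1) := rfl
  have hs := R.D.hs
  linear_combination (-1) * h3 + R.be i * hs

lemma i2 (i : Fin 3) : R.al i ^ 2 = (R.D.x - R.D.d) + (R.D.d + 2 - R.D.m) * R.al i +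
    (R.D.r - R.D.d) * R.be i := by
  have h3 : R.al i = R.be i ^ 2 - (R.D.s - 1) * R.be i + (R.D.d + 1) := rfl
  have hs := R.D.hs
  have ht := R.D.ht
  have hr := R.D.hr
  have hroot := R.root i
  have hx : R.D.x = R.D.m * R.D.d - R.D.r := by linarith
  rw [h3, hx]
  rw [ht] at hroot
  rw [hs] at hroot ⊢
  linear_combination (R.be i + 2 - (R.D.r + R.D.m + 1)) * hroot

lemma coef_L (i : Fin 3) : coef R.L i = ![1, R.al i, R.be i] := by
  funext j
  unfold coef
  rw [L_apply]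
  fin_cases j <;> simp

/-- the discriminant -/
def disc (p : Par) : ℤ :=
  p.s ^ 2 * p.t ^ 2 - 4 * p.s ^ 3 - 4 * p.t ^ 3 + 18 * p.s * p.t - 27

theorem det_sq : (coef R.L).det ^ 2 = (disc p : ℝ) := by
  have h : (coef R.L).det = (R.D.a - R.D.b) * (R.D.a - R.D.c) * (R.D.b - R.D.c) := by
    rw [Matrix.det_fin_three]
    simp only [coef_L, Matrix.cons_val]
    have e0 : R.be 0 = R.D.a := rfl
    have e1 : R.be 1 = R.D.b := rfl
    have e2 : R.be 2 = R.D.c := rfl
    have f0 : R.al 0 = R.D.a ^ 2 - (R.D.s - 1) * R.D.a + (R.D.d + 1) := rfl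
    have f1 : R.al 1 = R.D.b ^ 2 - (R.D.s - 1) * R.D.b + (R.D.d + 1) := rfl
    have f2 : R.al 2 = R.D.c ^ 2 - (R.D.s - 1) * R.D.c + (R.D.d + 1) := rfl
    rw [e0, e1, e2, f0, f1, f2]
    ring
  have h2 : ((R.D.a - R.D.b) * (R.D.a - R.D.c) * (R.D.b - R.D.c)) ^ 2 =
      (R.D.a + R.D.b + R.D.c) ^ 2 * (R.D.a * R.D.b + R.D.a * R.D.c + R.D.b * R.D.c) ^ 2 -
      4 * (R.D.a + R.D.b + R.D.c) ^ 3 * (R.D.a * R.D.b * R.D.c) -
      4 * (R.D.a * R.D.b + R.D.a * R.D.c + R.D.b * R.D.c) ^ 3 +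
      18 * (R.D.a + R.D.b + R.D.c) * (R.D.a * R.D.b + R.D.a * R.D.c + R.D.b * R.D.c) *
      (R.D.a * R.D.b * R.D.c) - 27 * (R.D.a * R.D.b * R.D.c) ^ 2 := by ring
  rw [h, h2, R.D.e1, R.D.e2, R.D.e3, R.es, R.et]
  unfold disc
  push_cast
  ring

theorem det_ne : (coef R.L).det ≠ 0 := by
  have hab := R.D.lt_ab
  have hbc := R.D.lt_bc
  have h : (coef R.L).det = (R.D.a - R.D.b) * (R.D.a - R.D.c) * (R.D.b - R.D.c) := by
    rw [Matrix.det_fin_three]
    simp only [coef_L, Matrix.cons_val]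
    have e0 : R.be 0 = R.D.a := rfl
    have e1 : R.be 1 = R.D.b := rfl
    have e2 : R.be 2 = R.D.c := rfl
    have f0 : R.al 0 = R.D.a ^ 2 - (R.D.s - 1) * R.D.a + (R.D.d + 1) := rfl
    have f1 : R.al 1 = R.D.b ^ 2 - (R.D.s - 1) * R.D.b + (R.D.d + 1) := rfl
    have f2 : R.al 2 = R.D.c ^ 2 - (R.D.s - 1) * R.D.c + (R.D.d + 1) := rfl
    rw [e0, e1, e2, f0, f1, f2]
    ring
  rw [h]
  exact mul_ne_zero (mul_ne_zero (sub_neg.mpr hab).ne (sub_neg.mpr (hab.trans hbc)).ne)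
    (sub_neg.mpr hbc).ne

/-- the product of the three forms is the norm form -/
theorem prod_real (z : V3) : ∏ i, R.L i z = nfv R.D.m R.D.x R.D.d R.D.r z := by
  have h1 : coef R.L * (!![z 0, z 1 * (R.D.x - R.D.d) - R.D.d * z 2,
      -(R.D.d * z 1) - (R.D.d + 1) * z 2;
      z 1, z 0 + (R.D.d + 2 - R.D.m) * z 1 + z 2, z 1 + z 2;
      z 2, (R.D.r - R.D.d) * z 1 + R.D.r * z 2,
      z 0 + R.D.r * z 1 + (R.D.r + R.D.m) * z 2] : Matrix (Fin 3) (Fin 3) ℝ) =
      Matrix.diagonal (fun i => R.L i z) * coef R.L := by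
    ext i j
    rw [Matrix.diagonal_mul, Matrix.mul_apply, Fin.sum_univ_three, coef_L, L_apply]
    have h1 := R.i1 i
    have h2 := R.i2 i
    have h3 := R.i3 i
    fin_cases j
    · simp
    · simp
      linear_combination (-z 1) * h2 - z 2 * h1
    · simp
      linear_combination (-z 1) * h1 - z 2 * h3
  have h2 := congrArg Matrix.det h1
  rw [Matrix.det_mul, Matrix.det_mul, Matrix.det_diagonal, mul_comm] at h2
  exact (mul_right_cancel₀ R.det_ne h2).symm

theorem prod_rat (z : Fin 3 → ℚ) : ∏ i, R.L i (fun j => (z j : ℝ)) =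
    ((nfv (p.m : ℚ) p.x p.d p.r z : ℚ) : ℝ) := by
  rw [prod_real]
  have h := nfv_map (Rat.castHom ℝ) (p.m : ℚ) p.x p.d p.r z
  simp only [Rat.coe_castHom, Rat.cast_natCast, Rat.cast_intCast] at h
  rw [R.em, R.ex, R.ed, R.er]
  exact h

theorem prod_int (z : Fin 3 → ℤ) : ∏ i, R.L i (ic z) =
    ((nfv (p.m : ℤ) p.x p.d p.r z : ℤ) : ℝ) := by
  rw [prod_real]
  have h := nfv_map (Int.castRingHom ℝ) (p.m : ℤ) p.x p.d p.r z
  simp only [Int.coe_castRingHom, Int.cast_natCast] at h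
  rw [R.em, R.ex, R.ed, R.er]
  exact h

theorem norm_ge (z : Fin 3 → ℤ) (hz : z ≠ 0) : 1 ≤ |∏ i, R.L i (ic z)| := by
  have h1 : ∏ i, R.L i (ic z) ≠ 0 := Finset.prod_ne_zero_iff.mpr fun i _ => R.irr z hz i
  rw [R.prod_int z] at h1 ⊢
  have h2 : nfv (p.m : ℤ) p.x p.d p.r z ≠ 0 := by exact_mod_cast h1
  have h3 : 1 ≤ |nfv (p.m : ℤ) p.x p.d p.r z| := Int.one_le_abs h2
  exact_mod_cast h3

end Rts

end Par

end Pool.Agent.KS6_21.S
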