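import Pool.Graph.R_seed8.H476R2.NonEq
import Pool.Agent.KS6_21.S.Dat

set_option autoImplicit false

namespace Pool.Agent.KS6_21.S

open Set Matrix Pool.Agent.H476R2

/-- Parameters of a two-triangle system. -/
structure Par where
  m : ℕ
  x : ℕ
  d : ℕ
  hm : 2 ≤ m
  hx : m ≤ x
  hd : x < d
  rel : d ^ 2 + x ^ 2 = m * d * x + 1

namespace Par

variable (p : Par)

def r : ℤ := p.m * p.d - p.x

def s : ℤ := p.r + p.m + 1

def t : ℤ := p.d + p.m + 1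

/-- the three roots -/
structure Rts (p : Par) where
  D : Dat
  em : D.m = p.m
  ex : D.x = p.x
  ed : D.d = p.d

lemma relZ : (p.d : ℤ) ^ 2 + (p.x : ℤ) ^ 2 = p.m * p.d * p.x + 1 := by
  exact_mod_cast p.rel

lemma d_lt_r : (p.d : ℤ) + 1 ≤ p.r := by
  have h1 : (2 : ℤ) ≤ p.m := by exact_mod_cast p.hm
  have h2 : (p.x : ℤ) + 1 ≤ p.d := by exact_mod_cast p.hd
  have h3 : (0 : ℤ) ≤ p.d := by positivity
  unfold r
  nlinarith

lemma m_lt_d : (p.m : ℤ) + 1 ≤ p.d := by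
  have h1 : (p.m : ℤ) ≤ p.x := by exact_mod_cast p.hx
  have h2 : (p.x : ℤ) + 1 ≤ p.d := by exact_mod_cast p.hd
  linarith

theorem exists_rts : Nonempty (Rts p) := by
  have hm : (2 : ℝ) ≤ p.m := by exact_mod_cast p.hm
  have hx : (p.m : ℝ) ≤ p.x := by exact_mod_cast p.hx
  have hd : (p.x : ℝ) + 1 ≤ p.d := by exact_mod_cast p.hd
  have hrel : (p.d : ℝ) ^ 2 + (p.x : ℝ) ^ 2 = p.m * p.d * p.x + 1 := by exact_mod_cast p.rel
  obtain ⟨m, em⟩ : ∃ m : ℝ, m = p.m := ⟨_, rfl⟩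
  obtain ⟨x, ex⟩ : ∃ x : ℝ, x = p.x := ⟨_, rfl⟩
  obtain ⟨d, ed⟩ : ∃ d : ℝ, d = p.d := ⟨_, rfl⟩
  rw [← em] at hm
  rw [← em, ← ex] at hx
  rw [← ex, ← ed] at hd
  rw [← em, ← ex, ← ed] at hrel
  obtain ⟨r, hr⟩ : ∃ r : ℝ, r = m * d - x := ⟨_, rfl⟩
  obtain ⟨s, hs⟩ : ∃ s : ℝ, s = r + m + 1 := ⟨_, rfl⟩
  obtain ⟨t, ht⟩ : ∃ t : ℝ, t = d + m + 1 := ⟨_, rfl⟩
  have hdr : d + 1 ≤ r := by rw [hr]; nlinarith
  have hcont : Continuous fun X : ℝ => X ^ 3 - s * X ^ 2 + t * X - 1 := by fun_prop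
  have v0 : (0:ℝ) ^ 3 - s * 0 ^ 2 + t * 0 - 1 < 0 := by norm_num
  have v1 : 0 < (1 / m) ^ 3 - s * (1 / m) ^ 2 + t * (1 / m) - 1 := by
    have hm0 : 0 < m := by linarith
    have e : (1 / m) ^ 3 - s * (1 / m) ^ 2 + t * (1 / m) - 1 = (m * (x - 1) + 1) / m ^ 3 := by
      rw [hs, ht, hr]
      field_simp
      ring
    rw [e]
    apply div_pos _ (by positivity)
    nlinarith
  have v2 : (1:ℝ) ^ 3 - s * 1 ^ 2 + t * 1 - 1 < 0 := by
    rw [hs, ht]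
    linarith
  have v3 : 0 < s ^ 3 - s * s ^ 2 + t * s - 1 := by
    have : 0 < t * s - 1 := by
      have h1 : 1 < s := by rw [hs]; linarith
      have h2 : 1 < t := by rw [ht]; linarith
      nlinarith
    linarith [show s ^ 3 - s * s ^ 2 + t * s - 1 = t * s - 1 by ring]
  have hm1 : 1 / m < 1 := by
    rw [div_lt_one (by linarith)]
    linarith
  have hm0 : 0 < 1 / m := by positivity
  have hs1 : 1 < s := by rw [hs]; linarith
  obtain ⟨a, ha, ea⟩ : (0 : ℝ) ∈ (fun X : ℝ => X ^ 3 - s * X ^ 2 + t * X - 1) ''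
      Set.Ioo 0 (1 / m) :=
    intermediate_value_Ioo hm0.le hcont.continuousOn ⟨v0, v1⟩
  obtain ⟨b, hb, eb⟩ : (0 : ℝ) ∈ (fun X : ℝ => X ^ 3 - s * X ^ 2 + t * X - 1) ''
      Set.Ioo (1 / m) 1 :=
    intermediate_value_Ioo' hm1.le hcont.continuousOn ⟨v2, v1⟩
  obtain ⟨c, hc, ec⟩ : (0 : ℝ) ∈ (fun X : ℝ => X ^ 3 - s * X ^ 2 + t * X - 1) ''
      Set.Ioo 1 s :=
    intermediate_value_Ioo hs1.le hcont.continuousOn ⟨v2, v3⟩
  have hmpos : 0 < m := by linarith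
  refine ⟨⟨⟨m, x, d, r, s, t, a, b, c, hm, hx, hd, hrel, hr, hs, ht, ea, eb, ec, ha.1, ?_, ?_,
    hb.2, hc.1⟩, em, ex, ed⟩⟩
  · have := ha.2
    rw [lt_div_iff₀ hmpos] at this
    linarith
  · have := hb.1
    rw [div_lt_iff₀ hmpos] at this
    linarith

namespace Rts

variable {p} (R : Rts p)

lemma er : R.D.r = (p.r : ℝ) := by
  rw [R.D.hr, R.em, R.ex, R.ed]
  unfold Par.r
  push_cast
  ring

lemma es : R.D.s = (p.s : ℝ) := by
  rw [R.D.hs, R.er, R.em]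
  unfold Par.s
  push_cast
  ring

lemma et : R.D.t = (p.t : ℝ) := by
  rw [R.D.ht, R.ed, R.em]
  unfold Par.t
  push_cast
  ring

noncomputable def be (i : Fin 3) : ℝ := ![R.D.a, R.D.b, R.D.c] i

noncomputable def al (i : Fin 3) : ℝ := R.D.al (R.be i)

/-- the linear forms, in the coordinates of the basis `1, α, β` -/
noncomputable def L (i : Fin 3) : V3 →ₗ[ℝ] ℝ := cov ![1, R.al i, R.be i]

theorem L_apply (i : Fin 3) (x : V3) : R.L i x = x 0 + R.al i * x 1 + R.be i * x 2 := by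
  simp [L, cov_apply, Fin.sum_univ_three]

theorem root (i : Fin 3) : R.be i ^ 3 - R.D.s * R.be i ^ 2 + R.D.t * R.be i - 1 = 0 := by
  fin_cases i
  · exact R.D.ha
  · exact R.D.hb
  · exact R.D.hc

theorem bepos (i : Fin 3) : 0 < R.be i := by
  fin_cases i
  · exact R.D.a0
  · exact R.D.b_pos
  · exact R.D.c_pos

theorem alpos (i : Fin 3) : 0 < R.al i := by
  fin_cases i
  · exact lt_trans one_pos R.D.al_a
  · exact R.D.al_b
  · exact lt_trans one_pos R.D.al_c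

end Rts

/-- the matrix of multiplication by `β` -/
def B : SpecialLinearGroup (Fin 3) ℤ :=
  ⟨!![0, -(p.d : ℤ), -((p.d : ℤ) + 1); 0, 1, 1; 1, p.r, p.r + p.m], by
    simp [Matrix.det_fin_three]⟩

/-- the matrix of multiplication by `α` -/
def A : SpecialLinearGroup (Fin 3) ℤ :=
  ⟨!![0, (p.x : ℤ) - p.d, -(p.d : ℤ); 1, (p.d : ℤ) + 2 - p.m, 1; 0, p.r - p.d, p.r], by
    have h := p.relZ
    simp [Matrix.det_fin_three]
    unfold r
    linear_combination h⟩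

theorem comm : p.A * p.B = p.B * p.A := by
  apply Subtype.ext
  show p.A.1 * p.B.1 = p.B.1 * p.A.1
  ext i j
  fin_cases i <;> fin_cases j <;>
    simp [A, B, Matrix.mul_apply, Fin.sum_univ_three, r] <;> ring

theorem B_mulVec (y : V3) : actL p.B y = ![-(p.d : ℝ) * y 1 - ((p.d : ℝ) + 1) * y 2, y 1 + y 2,
    y 0 + p.r * y 1 + (p.r + p.m) * y 2] := by
  funext i
  fin_cases i <;>
    simp [actL, actM, B, Matrix.mulVec, dotProduct, Fin.sum_univ_three] <;> ring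

theorem A_mulVec (y : V3) : actL p.A y = ![((p.x : ℝ) - p.d) * y 1 - (p.d : ℝ) * y 2,
    y 0 + ((p.d : ℝ) + 2 - p.m) * y 1 + y 2, ((p.r : ℝ) - p.d) * y 1 + p.r * y 2] := by
  funext i
  fin_cases i <;>
    simp [actL, actM, A, Matrix.mulVec, dotProduct, Fin.sum_univ_three] <;> ring

namespace Rts

variable {p} (R : Rts p)

theorem LB (i : Fin 3) (y : V3) : R.L i (actL p.B y) = R.be i * R.L i y := by
  rw [B_mulVec, L_apply, L_apply]
  simp only [Matrix.cons_val]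
  have h1 := R.D.al_mul (R.root i)
  have h2 : R.al i = R.D.al (R.be i) := rfl
  rw [← h2] at h1
  have h3 : R.al i = R.be i ^ 2 - (R.D.s - 1) * R.be i + (R.D.d + 1) := rfl
  have hs := R.D.hs
  have er := R.er
  have em := R.em
  have ed := R.ed
  rw [← er, ← em, ← ed]
  linear_combination (-y 1) * h1 + y 2 * h3 - R.be i * y 2 * hs

theorem LA (i : Fin 3) (y : V3) : R.L i (actL p.A y) = R.al i * R.L i y := by
  rw [A_mulVec, L_apply, L_apply]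
  simp only [Matrix.cons_val]
  have h1 := R.D.al_mul (R.root i)
  have h2 : R.al i = R.D.al (R.be i) := rfl
  rw [← h2] at h1
  have h3 : R.al i = R.be i ^ 2 - (R.D.s - 1) * R.be i + (R.D.d + 1) := rfl
  have hs := R.D.hs
  have ht := R.D.ht
  have hr := R.D.hr
  have er := R.er
  have em := R.em
  have ed := R.ed
  have ex := R.ex
  have hroot := R.root i
  rw [← er, ← em, ← ed, ← ex]
  have key : R.al i ^ 2 = (R.D.x - R.D.d) + (R.D.d + 2 - R.D.m) * R.al i +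
      (R.D.r - R.D.d) * R.be i := by
    have hx : R.D.x = R.D.m * R.D.d - R.D.r := by linarith
    rw [h3, hx]
    rw [ht] at hroot
    rw [hs] at hroot ⊢
    linear_combination (R.be i + 2 - (R.D.r + R.D.m + 1)) * hroot
  linear_combination (-y 2) * h1 - y 1 * key

theorem ind : LinearIndependent ℝ R.L := by
  rw [Fintype.linearIndependent_iff]
  intro g hg
  have hab := R.D.lt_ab
  have hbc := R.D.lt_bc
  have h : ∀ x, g 0 * R.L 0 x + g 1 * R.L 1 x + g 2 * R.L 2 x = 0 := by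
    intro x
    have := LinearMap.congr_fun hg x
    simpa [Fin.sum_univ_three] using this
  have h0 := h ![1, 0, 0]
  have h1 := h ![0, 0, 1]
  have h2 := h ![0, 1, 0]
  simp only [L_apply, Matrix.cons_val] at h0 h1 h2
  have e0 : R.be 0 = R.D.a := rfl
  have e1 : R.be 1 = R.D.b := rfl
  have e2 : R.be 2 = R.D.c := rfl
  have f0 : R.al 0 = R.D.a ^ 2 - (R.D.s - 1) * R.D.a + (R.D.d + 1) := rfl
  have f1 : R.al 1 = R.D.b ^ 2 - (R.D.s - 1) * R.D.b + (R.D.d + 1) := rfl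
  have f2 : R.al 2 = R.D.c ^ 2 - (R.D.s - 1) * R.D.c + (R.D.d + 1) := rfl
  rw [e0, e1, e2] at h0 h1 h2
  rw [f0, f1, f2] at h0 h1 h2
  have h2' : g 0 * R.D.a ^ 2 + g 1 * R.D.b ^ 2 + g 2 * R.D.c ^ 2 = 0 := by
    linear_combination h2 + (R.D.s - 1) * h1 - (R.D.d + 1) * h0
  have g0 : g 0 * ((R.D.a - R.D.b) * (R.D.a - R.D.c)) = 0 := by
    linear_combination h2' - (R.D.b + R.D.c) * h1 + R.D.b * R.D.c * h0
  have g1 : g 1 * ((R.D.b - R.D.a) * (R.D.b - R.D.c)) = 0 := by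
    linear_combination h2' - (R.D.a + R.D.c) * h1 + R.D.a * R.D.c * h0
  have g2 : g 2 * ((R.D.c - R.D.a) * (R.D.c - R.D.b)) = 0 := by
    linear_combination h2' - (R.D.a + R.D.b) * h1 + R.D.a * R.D.b * h0
  have d1 : R.D.a - R.D.b ≠ 0 := (sub_neg.mpr hab).ne
  have d2 : R.D.b - R.D.c ≠ 0 := (sub_neg.mpr hbc).ne
  have d3 : R.D.a - R.D.c ≠ 0 := (sub_neg.mpr (hab.trans hbc)).ne
  have d1' : R.D.b - R.D.a ≠ 0 := (sub_pos.mpr hab).ne'
  have d2' : R.D.c - R.D.b ≠ 0 := (sub_pos.mpr hbc).ne'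
  have d3' : R.D.c - R.D.a ≠ 0 := (sub_pos.mpr (hab.trans hbc)).ne'
  intro i
  fin_cases i
  · exact (mul_eq_zero.mp g0).resolve_right (mul_ne_zero d1 d3)
  · exact (mul_eq_zero.mp g1).resolve_right (mul_ne_zero d1' d2)
  · exact (mul_eq_zero.mp g2).resolve_right (mul_ne_zero d3' d2')

/-- dual coordinates of a covector with values `f0, f1, f2` at `1, β, β ^ 2` -/
noncomputable def dual (f0 f1 f2 : ℝ) : Fin 3 → ℝ :=
  ![(f2 - (R.D.b + R.D.c) * f1 + R.D.b * R.D.c * f0) / ((R.D.a - R.D.b) * (R.D.a - R.D.c)),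
    (f2 - (R.D.a + R.D.c) * f1 + R.D.a * R.D.c * f0) / ((R.D.b - R.D.a) * (R.D.b - R.D.c)),
    (f2 - (R.D.a + R.D.b) * f1 + R.D.a * R.D.b * f0) / ((R.D.c - R.D.a) * (R.D.c - R.D.b))]

theorem dual_eq (f0 f1 f2 : ℝ) (x : V3) :
    f0 * x 0 + (f2 - (R.D.s - 1) * f1 + (R.D.d + 1) * f0) * x 1 + f1 * x 2 =
      ∑ i, R.dual f0 f1 f2 i * R.L i x := by
  have hab := R.D.lt_ab
  have hbc := R.D.lt_bc
  have d1 : R.D.a - R.D.b ≠ 0 := (sub_neg.mpr hab).ne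
  have d2 : R.D.b - R.D.c ≠ 0 := (sub_neg.mpr hbc).ne
  have d3 : R.D.a - R.D.c ≠ 0 := (sub_neg.mpr (hab.trans hbc)).ne
  rw [Fin.sum_univ_three, L_apply, L_apply, L_apply]
  have e0 : R.be 0 = R.D.a := rfl
  have e1 : R.be 1 = R.D.b := rfl
  have e2 : R.be 2 = R.D.c := rfl
  have f0 : R.al 0 = R.D.a ^ 2 - (R.D.s - 1) * R.D.a + (R.D.d + 1) := rfl
  have f1 : R.al 1 = R.D.b ^ 2 - (R.D.s - 1) * R.D.b + (R.D.d + 1) := rfl
  have f2 : R.al 2 = R.D.c ^ 2 - (R.D.s - 1) * R.D.c + (R.D.d + 1) := rfl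
  rw [e0, e1, e2, f0, f1, f2]
  simp only [dual, Matrix.cons_val]
  have r1 : R.D.b - R.D.a = -(R.D.a - R.D.b) := by ring
  have r2 : R.D.c - R.D.b = -(R.D.b - R.D.c) := by ring
  have r3 : R.D.c - R.D.a = -(R.D.a - R.D.c) := by ring
  rw [r1, r2, r3]
  field_simp
  ring

theorem dual_pos {f0 f1 f2 : ℝ} (h0 : 0 < f2 - (R.D.b + R.D.c) * f1 + R.D.b * R.D.c * f0)
    (h1 : f2 - (R.D.a + R.D.c) * f1 + R.D.a * R.D.c * f0 < 0)
    (h2 : 0 < f2 - (R.D.a + R.D.b) * f1 + R.D.a * R.D.b * f0) (i : Fin 3) :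
    0 < R.dual f0 f1 f2 i := by
  have hab := R.D.lt_ab
  have hbc := R.D.lt_bc
  have d1 : R.D.a - R.D.b < 0 := sub_neg.mpr hab
  have d2 : R.D.b - R.D.c < 0 := sub_neg.mpr hbc
  have d3 : R.D.a - R.D.c < 0 := sub_neg.mpr (hab.trans hbc)
  have d1' : 0 < R.D.b - R.D.a := sub_pos.mpr hab
  have d2' : 0 < R.D.c - R.D.b := sub_pos.mpr hbc
  have d3' : 0 < R.D.c - R.D.a := sub_pos.mpr (hab.trans hbc)
  fin_cases i
  · exact div_pos h0 (mul_pos_of_neg_of_neg d1 d3)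
  · exact div_pos_of_neg_of_neg h1 (mul_neg_of_pos_of_neg d1' d2)
  · exact div_pos h2 (mul_pos d3' d2')

noncomputable def cU : Fin 3 → ℝ := R.dual 1 1 (R.D.s - R.D.d - 1)

noncomputable def cD : Fin 3 → ℝ := R.dual R.D.r R.D.d (R.D.d + R.D.x)

theorem cU_pos (i : Fin 3) : 0 < R.cU i := R.dual_pos R.D.U1 R.D.U2 R.D.U3 i

theorem cD_pos (i : Fin 3) : 0 < R.cD i := R.dual_pos R.D.D1 R.D.D2 R.D.D3 i

theorem sumU (x : V3) : x 0 + x 1 + x 2 = ∑ i, R.cU i * R.L i x := by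
  unfold cU
  rw [← R.dual_eq]
  ring

theorem sumD (x : V3) : R.D.r * x 0 + R.D.d * x 1 + R.D.d * x 2 = ∑ i, R.cD i * R.L i x := by
  unfold cD
  rw [← R.dual_eq]
  have hs := R.D.hs
  have hr := R.D.hr
  rw [hs]
  linear_combination (-x 1) * hr

theorem covU (x : V3) : cov (ic ![1, 1, 1]) x = ∑ i, R.cU i * R.L i x := by
  rw [← R.sumU, cov_apply]
  simp [Fin.sum_univ_three, ic]

theorem covD (x : V3) : cov (ic ![p.r, p.d, p.d]) x = ∑ i, R.cD i * R.L i x := by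
  rw [← R.sumD, cov_apply, R.er, R.ed]
  simp [Fin.sum_univ_three, ic]

theorem posU {x : V3} (hx : ∀ i, 0 < R.L i x) : 0 < x 0 + x 1 + x 2 := by
  rw [R.sumU]
  exact Finset.sum_pos (fun i _ => mul_pos (R.cU_pos i) (hx i)) Finset.univ_nonempty

theorem L_inv {g : SpecialLinearGroup (Fin 3) ℤ} {c : Fin 3 → ℝ} (hc : ∀ i, 0 < c i)
    (h : ∀ i x, R.L i (actL g x) = c i * R.L i x) {x : V3} (hx : ∀ i, 0 < R.L i x) (i : Fin 3) :
    0 < R.L i (actL g⁻¹ x) := by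
  have h1 := h i (actL g⁻¹ x)
  rw [actL_self_inv] at h1
  have h2 := hx i
  rw [h1] at h2
  exact (mul_pos_iff_of_pos_left (hc i)).mp h2

end Rts

end Par

end Pool.Agent.KS6_21.S
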