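import Pool.Agent.KS6_21.S.Par

set_option autoImplicit false

namespace Pool.Agent.KS6_21.S

open Set Matrix Pool.Agent.H476R2

lemma int_pos {u P : ℤ} (hu : 0 < u) (h : 0 < u * P) : 0 < P := (mul_pos_iff_of_pos_left hu).mp h

lemma int_nonneg {u P : ℤ} (hu : 0 < u) (h : 0 ≤ u * P) : 0 ≤ P := by
  by_contra hcon
  push Not at hcon
  have := mul_neg_of_pos_of_neg hu hcon
  linarith

/-- the arithmetic behind the distance `d` faces -/
theorem min_core {m x d r z0 z1 z2 : ℤ} (hm : 2 ≤ m) (hx : m ≤ x) (hd : x + 1 ≤ d)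
    (hrel : d ^ 2 + x ^ 2 = m * d * x + 1) (hr : r = m * d - x) (hdr : d + 1 ≤ r)
    (k0 : 0 < z0 + z1 + z2)
    (k1 : 0 < r * (d + 1 - m) * z0 + z1 + d * (d + 1 - m) * z2)
    (k2 : 0 < m * z0 + (1 + x) * z1 + z2) :
    d ≤ r * z0 + d * z1 + d * z2 ∧
      (r * z0 + d * z1 + d * z2 = d →
        (z0 = 0 ∧ z1 = 1 ∧ z2 = 0) ∨ (z0 = 0 ∧ z1 = 0 ∧ z2 = 1) ∨
          (z0 = -d ∧ z1 = 1 ∧ z2 = r)) := by
  have i0 : d * (z0 + z1 + z2) = (r * z0 + d * z1 + d * z2) + (r - d) * (-z0) := by ring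
  have i1 : d * (r * (d + 1 - m) * z0 + z1 + d * (d + 1 - m) * z2) =
      (r * z0 + d * z1 + d * z2) + (d * (d + 1 - m) - 1) * (d * z2 + r * z0) := by ring
  have i2 : d * (m * z0 + (1 + x) * z1 + z2) =
      (r * z0 + d * z1 + d * z2) + x * (d * z1 + z0) := by
    rw [hr]; ring
  have u0 : 0 < r - d := by linarith
  have u1 : 0 < d * (d + 1 - m) - 1 := by nlinarith
  have u2 : 0 < x := by linarith
  have d0 : 0 < d := by linarith
  have j0 : d ≤ d * (z0 + z1 + z2) := le_mul_of_one_le_right d0.le k0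
  have j1 : d ≤ d * (r * (d + 1 - m) * z0 + z1 + d * (d + 1 - m) * z2) :=
    le_mul_of_one_le_right d0.le k1
  have j2 : d ≤ d * (m * z0 + (1 + x) * z1 + z2) := le_mul_of_one_le_right d0.le k2
  rw [i0] at j0
  rw [i1] at j1
  rw [i2] at j2
  constructor
  · by_contra hcon
    push Not at hcon
    have p0 : 0 < -z0 := int_pos u0 (by linarith)
    have p1 : 0 < d * z2 + r * z0 := int_pos u1 (by linarith)
    have p2 : 0 < d * z1 + z0 := int_pos u2 (by linarith)
    have p3 : 0 < z1 := int_pos d0 (by linarith)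
    have p4 : d ≤ d * z1 := le_mul_of_one_le_right d0.le p3
    linarith
  · intro hFd
    have p0 : 0 ≤ -z0 := int_nonneg u0 (by linarith)
    have p1 : 0 ≤ d * z2 + r * z0 := int_nonneg u1 (by linarith)
    have p2 : 0 ≤ d * z1 + z0 := int_nonneg u2 (by linarith)
    have p3 : 0 ≤ z1 := int_nonneg d0 (by linarith)
    have p4 : z1 < 2 := by
      by_contra hcon
      push Not at hcon
      have : d * 2 ≤ d * z1 := mul_le_mul_of_nonneg_left hcon d0.le
      linarith
    have p5 : z1 = 0 ∨ z1 = 1 := by omega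
    rcases p5 with h | h
    · subst h
      have h0 : z0 = 0 := by linarith
      subst h0
      have h2 : d * (z2 - 1) = 0 := by linarith
      have h3 : z2 - 1 = 0 := (mul_eq_zero.mp h2).resolve_left d0.ne'
      exact Or.inr (Or.inl ⟨rfl, rfl, by linarith⟩)
    · subst h
      have h2 : d * z2 = -(r * z0) := by linarith
      have h3 : -z0 = d * (d * (-z0) - x * z2) := by
        have h4 : d * d - x * r = 1 := by rw [hr]; linarith
        linear_combination z0 * h4 + x * h2
      obtain ⟨q, hq⟩ : ∃ q, q = d * (-z0) - x * z2 := ⟨_, rfl⟩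
      rw [← hq] at h3
      have h5 : 0 ≤ q := int_nonneg d0 (by linarith)
      have h6 : q < 2 := by
        by_contra hcon
        push Not at hcon
        have : d * 2 ≤ d * q := mul_le_mul_of_nonneg_left hcon d0.le
        linarith
      have h7 : q = 0 ∨ q = 1 := by omega
      rcases h7 with h8 | h8
      · rw [h8, mul_zero] at h3
        have h0 : z0 = 0 := by linarith
        subst h0
        have h9 : d * z2 = 0 := by linarith
        have h10 : z2 = 0 := (mul_eq_zero.mp h9).resolve_left d0.ne'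
        exact Or.inl ⟨rfl, rfl, h10⟩
      · rw [h8, mul_one] at h3
        have h0 : z0 = -d := by linarith
        subst h0
        have h9 : d * (z2 - r) = 0 := by linarith
        have h10 : z2 - r = 0 := (mul_eq_zero.mp h9).resolve_left d0.ne'
        exact Or.inr (Or.inr ⟨rfl, rfl, by linarith⟩)

namespace Par

variable (p : Par)

theorem min_aux {z0 z1 z2 : ℤ} (k0 : 0 < z0 + z1 + z2)
    (k1 : 0 < p.r * ((p.d : ℤ) + 1 - p.m) * z0 + z1 + p.d * ((p.d : ℤ) + 1 - p.m) * z2)
    (k2 : 0 < p.m * z0 + (1 + p.x) * z1 + z2) :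
    (p.d : ℤ) ≤ p.r * z0 + p.d * z1 + p.d * z2 ∧
      (p.r * z0 + p.d * z1 + p.d * z2 = p.d →
        (z0 = 0 ∧ z1 = 1 ∧ z2 = 0) ∨ (z0 = 0 ∧ z1 = 0 ∧ z2 = 1) ∨
          (z0 = -(p.d : ℤ) ∧ z1 = 1 ∧ z2 = p.r)) :=
  min_core (by exact_mod_cast p.hm) (by exact_mod_cast p.hx) (by exact_mod_cast p.hd) p.relZ rfl
    p.d_lt_r k0 k1 k2

/-! ### irreducibility -/

theorem charpoly_B : p.B.1.charpoly = Polynomial.X ^ 3 + (Polynomial.C (-p.s) *
    Polynomial.X ^ 2 + Polynomial.C p.t * Polynomial.X + Polynomial.C (-1)) := by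
  rw [B, Matrix.charpoly, Matrix.det_fin_three]
  simp [s, t, r]
  ring

theorem irreducible_B : Irreducible (p.B.1.charpoly.map (Int.castRingHom ℚ)) := by
  rw [charpoly_B]
  have hmon : (Polynomial.X ^ 3 + (Polynomial.C (-p.s) * Polynomial.X ^ 2 +
      Polynomial.C p.t * Polynomial.X + Polynomial.C (-1)) : Polynomial ℤ).Monic := by
    apply Polynomial.monic_X_pow_add
    exact lt_of_le_of_lt (by compute_degree) (by norm_num : (2 : WithBot ℕ) < 3)
  have hdeg : (Polynomial.X ^ 3 + (Polynomial.C (-p.s) * Polynomial.X ^ 2 +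
      Polynomial.C p.t * Polynomial.X + Polynomial.C (-1)) : Polynomial ℤ).natDegree = 3 := by
    compute_degree!
  apply Polynomial.irreducible_of_degree_le_three_of_not_isRoot
  · rw [hmon.natDegree_map, hdeg]
    simp
  · intro q hr
    have hr' : Polynomial.aeval q (Polynomial.X ^ 3 + (Polynomial.C (-p.s) * Polynomial.X ^ 2 +
        Polynomial.C p.t * Polynomial.X + Polynomial.C (-1)) : Polynomial ℤ) = 0 := by
      rw [Polynomial.IsRoot.def, Polynomial.eval_map] at hr
      rw [Polynomial.aeval_def]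
      exact hr
    obtain ⟨n, hn⟩ := isInteger_of_is_root_of_monic hmon hr'
    rw [← hn] at hr'
    simp only [map_add, map_mul, map_pow, Polynomial.aeval_X, Polynomial.aeval_C] at hr'
    simp only [algebraMap_int_eq, eq_intCast] at hr'
    have h3 : n ^ 3 - p.s * n ^ 2 + p.t * n - 1 = 0 := by
      have h2 : ((n ^ 3 - p.s * n ^ 2 + p.t * n - 1 : ℤ) : ℚ) = 0 := by
        rw [← hr']
        push_cast
        ring
      exact_mod_cast h2
    have h4 : n * (n ^ 2 - p.s * n + p.t) = 1 := by linarith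
    have h5 := p.d_lt_r
    have h6 : (0 : ℤ) ≤ p.m := by positivity
    have h7 : (0 : ℤ) ≤ p.d := by positivity
    have h8 : p.s = p.r + p.m + 1 := rfl
    have h9 : p.t = p.d + p.m + 1 := rfl
    rcases Int.eq_one_or_neg_one_of_mul_eq_one h4 with h | h
    · rw [h] at h3
      linarith
    · rw [h] at h3
      linarith

namespace Rts

variable {p} (R : Rts p)

/-- a root satisfies no integer relation of degree at most two -/
theorem no_rel (i : Fin 3) {w0 w1 w2 : ℤ} (h : (w0 : ℝ) + w1 * R.be i + w2 * R.be i ^ 2 = 0) :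
    w0 = 0 ∧ w1 = 0 ∧ w2 = 0 := by
  have hirr := p.irreducible_B
  have hmonic : (p.B.1.charpoly.map (Int.castRingHom ℚ)).Monic :=
    (Matrix.charpoly_monic _).map _
  have hroot : Polynomial.aeval (R.be i) (p.B.1.charpoly.map (Int.castRingHom ℚ)) = 0 := by
    rw [charpoly_B]
    have h1 := R.root i
    have es := R.es
    have et := R.et
    rw [es, et] at h1
    simp only [Polynomial.map_add, Polynomial.map_mul, Polynomial.map_pow, Polynomial.map_X,
      Polynomial.map_C, map_add, map_mul, map_pow, Polynomial.aeval_X, Polynomial.aeval_C]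
    simp only [eq_intCast, map_intCast]
    push_cast
    linear_combination h1
  have hmin := minpoly.eq_of_irreducible_of_monic hirr hroot hmonic
  have hdeg : (minpoly ℚ (R.be i)).degree = 3 := by
    rw [← hmin, Polynomial.degree_map_eq_of_injective (RingHom.injective_int _),
      Matrix.charpoly_degree_eq_dim]
    rfl
  obtain ⟨u0, hu0⟩ : ∃ u : ℚ, u = w0 := ⟨_, rfl⟩
  obtain ⟨u1, hu1⟩ : ∃ u : ℚ, u = w1 := ⟨_, rfl⟩
  obtain ⟨u2, hu2⟩ : ∃ u : ℚ, u = w2 := ⟨_, rfl⟩
  obtain ⟨q, hq⟩ : ∃ q : Polynomial ℚ, q = Polynomial.C u0 +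
    Polynomial.C u1 * Polynomial.X + Polynomial.C u2 * Polynomial.X ^ 2 := ⟨_, rfl⟩
  have hq0 : q = 0 := by
    by_contra hne
    have h1 : Polynomial.aeval (R.be i) q = 0 := by
      rw [hq, hu0, hu1, hu2]
      simp
      exact h
    have h2 := minpoly.degree_le_of_ne_zero ℚ (R.be i) hne h1
    rw [hdeg] at h2
    have h3 : q.degree ≤ 2 := by
      rw [hq]
      compute_degree
    have h4 := h2.trans h3
    norm_num at h4
  have c0 : q.coeff 0 = w0 := by rw [hq, ← hu0]; simp
  have c1 : q.coeff 1 = w1 := by rw [hq, ← hu1]; simp [Polynomial.coeff_C]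
  have c2 : q.coeff 2 = w2 := by
    rw [hq, ← hu2]
    simp
  rw [hq0, Polynomial.coeff_zero] at c0 c1 c2
  refine ⟨?_, ?_, ?_⟩
  · exact_mod_cast c0.symm
  · exact_mod_cast c1.symm
  · exact_mod_cast c2.symm

theorem irr (z : Fin 3 → ℤ) (hz : z ≠ 0) (i : Fin 3) : R.L i (ic z) ≠ 0 := by
  intro h
  rw [L_apply] at h
  have h3 : R.al i = R.be i ^ 2 - (R.D.s - 1) * R.be i + (R.D.d + 1) := rfl
  have h1 : (((z 0 + (p.d + 1) * z 1 : ℤ) : ℝ)) + ((z 2 - (p.s - 1) * z 1 : ℤ) : ℝ) * R.be i +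
      ((z 1 : ℤ) : ℝ) * R.be i ^ 2 = 0 := by
    have es := R.es
    have ed := R.ed
    simp only [ic] at h
    rw [h3, es, ed] at h
    push_cast
    linear_combination h
  obtain ⟨h4, h5, h6⟩ := R.no_rel i h1
  apply hz
  rw [h6] at h4 h5
  funext j
  fin_cases j
  · show z 0 = 0
    linarith
  · exact h6
  · show z 2 = 0
    linarith

/-- the matrix of multiplication by `z 0 + z 1 α + z 2 β` -/
def mulM (p : Par) {S : Type} [CommRing S] (f : ℤ →+* S) (z : Fin 3 → S) : Matrix (Fin 3) (Fin 3) S :=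
  z 0 • 1 + z 1 • p.A.1.map f + z 2 • p.B.1.map f

end Rts

end Par

end Pool.Agent.KS6_21.S
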