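import Pool.Agent.KS6_21.S.Sys

set_option autoImplicit false

namespace Pool.Agent.KS6_21.S

open Set Matrix Pool.Agent.H476R2

namespace Par

variable (p : Par)

theorem Av : p.A.1.mulVec ![1, 0, 0] = ![0, 1, 0] := by
  funext i
  fin_cases i <;> simp [A, Matrix.mulVec, dotProduct, Fin.sum_univ_three]

theorem Bv : p.B.1.mulVec ![1, 0, 0] = ![0, 0, 1] := by
  funext i
  fin_cases i <;> simp [B, Matrix.mulVec, dotProduct, Fin.sum_univ_three]

theorem ABv : (p.A * p.B).1.mulVec ![1, 0, 0] = ![-(p.d : ℤ), 1, p.r] := by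
  have h1 : (p.A * p.B).1 = p.A.1 * p.B.1 := rfl
  rw [h1, ← Matrix.mulVec_mulVec, Bv]
  funext i
  fin_cases i <;> simp [A, Matrix.mulVec, dotProduct, Fin.sum_univ_three]

namespace Rts

variable {p} (R : Rts p)

theorem minD_aux (z : Fin 3 → ℤ) (hz : ∀ i, 0 < R.L i (ic z)) :
    (p.d : ℤ) ≤ p.r * z 0 + p.d * z 1 + p.d * z 2 ∧
      (p.r * z 0 + p.d * z 1 + p.d * z 2 = p.d →
        (z 0 = 0 ∧ z 1 = 1 ∧ z 2 = 0) ∨ (z 0 = 0 ∧ z 1 = 0 ∧ z 2 = 1) ∨
          (z 0 = -(p.d : ℤ) ∧ z 1 = 1 ∧ z 2 = p.r)) := by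
  have h0 := R.posU hz
  have hA := R.posU (R.L_inv R.alpos R.LA hz)
  have hB := R.posU (R.L_inv R.bepos R.LB hz)
  have eA : actL p.A (actL p.A⁻¹ (ic z)) = ic z := actL_self_inv _ _
  have eB : actL p.B (actL p.B⁻¹ (ic z)) = ic z := actL_self_inv _ _
  obtain ⟨y, hy⟩ : ∃ y, y = actL p.A⁻¹ (ic z) := ⟨_, rfl⟩
  obtain ⟨w, hw⟩ : ∃ w, w = actL p.B⁻¹ (ic z) := ⟨_, rfl⟩
  rw [← hy] at hA eA
  rw [← hw] at hB eB
  rw [A_mulVec] at eA
  rw [B_mulVec] at eB
  have a0 := congrFun eA 0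
  have a1 := congrFun eA 1
  have a2 := congrFun eA 2
  have b0 := congrFun eB 0
  have b1 := congrFun eB 1
  have b2 := congrFun eB 2
  simp only [Matrix.cons_val, ic] at a0 a1 a2 b0 b1 b2 h0
  have hrelR : (p.d : ℝ) ^ 2 + (p.x : ℝ) ^ 2 = p.m * p.d * p.x + 1 := by exact_mod_cast p.rel
  have hrR : (p.r : ℝ) = p.m * p.d - p.x := by
    unfold Par.r
    push_cast
    ring
  have k0 : 0 < z 0 + z 1 + z 2 := by exact_mod_cast h0
  have k1 : 0 < p.r * ((p.d : ℤ) + 1 - p.m) * z 0 + z 1 + p.d * ((p.d : ℤ) + 1 - p.m) * z 2 := by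
    have : (0 : ℝ) < p.r * ((p.d : ℝ) + 1 - p.m) * z 0 + z 1 +
        p.d * ((p.d : ℝ) + 1 - p.m) * z 2 := by
      rw [← a0, ← a1, ← a2]
      have e : (p.r : ℝ) * ((p.d : ℝ) + 1 - p.m) * (((p.x : ℝ) - p.d) * y 1 - p.d * y 2) +
          (y 0 + ((p.d : ℝ) + 2 - p.m) * y 1 + y 2) +
          p.d * ((p.d : ℝ) + 1 - p.m) * (((p.r : ℝ) - p.d) * y 1 + p.r * y 2) =
          y 0 + y 1 + y 2 := by
        rw [hrR]
        linear_combination (-((p.d : ℝ) + 1 - p.m) * y 1) * hrelR
      rw [e]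
      exact hA
    exact_mod_cast this
  have k2 : 0 < p.m * z 0 + (1 + p.x) * z 1 + z 2 := by
    have : (0 : ℝ) < p.m * z 0 + (1 + p.x) * z 1 + z 2 := by
      rw [← b0, ← b1, ← b2]
      have e : (p.m : ℝ) * (-(p.d : ℝ) * w 1 - ((p.d : ℝ) + 1) * w 2) +
          (1 + (p.x : ℝ)) * (w 1 + w 2) + (w 0 + p.r * w 1 + (p.r + p.m) * w 2) =
          w 0 + w 1 + w 2 := by
        rw [hrR]
        ring
      rw [e]
      exact hB
    exact_mod_cast this
  exact p.min_aux k0 k1 k2

theorem minU_aux (z : Fin 3 → ℤ) (hz : ∀ i, 0 < R.L i (ic z)) (h : z 0 + z 1 + z 2 = 1) :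
    (z 0 = 1 ∧ z 1 = 0 ∧ z 2 = 0) ∨ (z 0 = 0 ∧ z 1 = 1 ∧ z 2 = 0) ∨
      (z 0 = 0 ∧ z 1 = 0 ∧ z 2 = 1) := by
  have h0 := (R.minD_aux z hz).1
  have hA : ∀ i, 0 < R.L i (actL p.A (ic z)) := fun i => by
    rw [LA]
    exact mul_pos (R.alpos i) (hz i)
  have hB : ∀ i, 0 < R.L i (actL p.B (ic z)) := fun i => by
    rw [LB]
    exact mul_pos (R.bepos i) (hz i)
  rw [actL_ic] at hA hB
  have h1 := (R.minD_aux _ hA).1
  have h2 := (R.minD_aux _ hB).1
  have hr : p.r = p.m * p.d - p.x := rfl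
  simp [A, B, Matrix.mulVec, dotProduct, Fin.sum_univ_three] at h1 h2
  have hm : (2 : ℤ) ≤ p.m := by exact_mod_cast p.hm
  have hx : (p.m : ℤ) ≤ p.x := by exact_mod_cast p.hx
  have hd : (p.x : ℤ) + 1 ≤ p.d := by exact_mod_cast p.hd
  have hdr := p.d_lt_r
  have hz0 : z 0 = 1 - z 1 - z 2 := by linarith
  have i0 : 0 ≤ z 0 := by
    apply int_nonneg (show (0 : ℤ) < p.r - p.d by linarith)
    have e : p.r * z 0 + p.d * z 1 + p.d * z 2 = p.d + (p.r - p.d) * z 0 := by
      rw [hz0]; ring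
    rw [e] at h0
    linarith
  have i1 : 0 ≤ z 1 := by
    have u : (0 : ℤ) < (p.r - 1) * (p.x - 1) + (p.d - 1) := by
      have := mul_pos (show (0 : ℤ) < p.r - 1 by linarith) (show (0 : ℤ) < (p.x : ℤ) - 1 by linarith)
      linarith
    apply int_nonneg u
    have e : p.r * (((p.x : ℤ) - p.d) * z 1 + -((p.d : ℤ) * z 2)) +
        p.d * (z 0 + ((p.d : ℤ) + 2 - p.m) * z 1 + z 2) +
        p.d * ((p.r - p.d) * z 1 + p.r * z 2) =
        p.d + ((p.r - 1) * (p.x - 1) + (p.d - 1)) * z 1 := by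
      rw [hz0]
      linear_combination z 1 * hr
    linarith
  have i2 : 0 ≤ z 2 := by
    apply int_nonneg (show (0 : ℤ) < p.x by linarith)
    have e : p.r * (-((p.d : ℤ) * z 1) + (-1 + -(p.d : ℤ)) * z 2) +
        p.d * (z 1 + z 2) + p.d * (z 0 + p.r * z 1 + (p.r + p.m) * z 2) =
        p.d + p.x * z 2 := by
      rw [hz0]
      linear_combination (-z 2) * hr
    linarith
  omega

/-- the system of the parameters -/
noncomputable def sys : Sys where
  A := p.A
  B := p.B
  comm := p.comm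
  L := R.L
  ind := R.ind
  al := R.al
  be := R.be
  alpos := R.alpos
  bepos := R.bepos
  LA := R.LA
  LB := R.LB
  v := ![1, 0, 0]
  Lv i := by simp [L_apply, ic]
  irr z hz i := R.irr z hz i
  fU := ![1, 1, 1]
  fD := ![p.r, p.d, p.d]
  d := p.d
  dpos := by
    have := p.hd
    omega
  cU := R.cU
  cD := R.cD
  cUpos := R.cU_pos
  cDpos := R.cD_pos
  fUc := R.covU
  fDc := R.covD
  fU0 := by simp [Fin.sum_univ_three]
  fU1 := by rw [Av]; simp [Fin.sum_univ_three]
  fU2 := by rw [Bv]; simp [Fin.sum_univ_three]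
  fD0 := by rw [Av]; simp [Fin.sum_univ_three]
  fD1 := by rw [Bv]; simp [Fin.sum_univ_three]
  fD2 := by
    rw [ABv]
    simp [Fin.sum_univ_three]
    ring
  minU z hz h := by
    rw [Av, Bv]
    have h1 : z 0 + z 1 + z 2 = 1 := by
      simpa [Fin.sum_univ_three] using h
    rcases R.minU_aux z hz h1 with h | h | h
    · left
      funext i
      fin_cases i
      · exact h.1
      · exact h.2.1
      · exact h.2.2
    · right; left
      funext i
      fin_cases i
      · exact h.1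
      · exact h.2.1
      · exact h.2.2
    · right; right
      funext i
      fin_cases i
      · exact h.1
      · exact h.2.1
      · exact h.2.2
  minD z hz := by
    rw [Av, Bv, ABv]
    have e : ∑ k, (![p.r, p.d, p.d] : Fin 3 → ℤ) k * z k = p.r * z 0 + p.d * z 1 + p.d * z 2 := by
      simp [Fin.sum_univ_three]
    rw [e]
    obtain ⟨h1, h2⟩ := R.minD_aux z hz
    refine ⟨h1, fun h => ?_⟩
    rcases h2 h with h | h | h
    · left
      funext i
      fin_cases i
      · exact h.1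
      · exact h.2.1
      · exact h.2.2
    · right; left
      funext i
      fin_cases i
      · exact h.1
      · exact h.2.1
      · exact h.2.2
    · right; right
      funext i
      fin_cases i
      · exact h.1
      · exact h.2.1
      · exact h.2.2
  contr i := by
    have a0 : 1 < R.al 0 := R.D.al_a
    have a1 : R.al 1 < R.be 1 := R.D.al_b_lt
    have a2 : 1 < R.al 2 := R.D.al_c
    have a2' : R.al 2 < R.be 2 := R.D.al_c_lt
    have b0 : R.be 0 < 1 := R.D.a_lt
    have b1 : R.be 1 < 1 := R.D.b1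
    fin_cases i
    · refine ⟨1, -1, fun j hj => ?_⟩
      fin_cases j
      · exact absurd rfl hj
      · show R.al 1 ^ (1 : ℤ) * R.be 1 ^ (-1 : ℤ) < 1
        rw [zpow_one, _root_.zpow_neg_one, ← div_eq_mul_inv, div_lt_one (R.bepos 1)]
        exact a1
      · show R.al 2 ^ (1 : ℤ) * R.be 2 ^ (-1 : ℤ) < 1
        rw [zpow_one, _root_.zpow_neg_one, ← div_eq_mul_inv, div_lt_one (R.bepos 2)]
        exact a2'
    · refine ⟨-1, 0, fun j hj => ?_⟩
      fin_cases j
      · show R.al 0 ^ (-1 : ℤ) * R.be 0 ^ (0 : ℤ) < 1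
        rw [zpow_zero, mul_one, _root_.zpow_neg_one]
        exact inv_lt_one_of_one_lt₀ a0
      · exact absurd rfl hj
      · show R.al 2 ^ (-1 : ℤ) * R.be 2 ^ (0 : ℤ) < 1
        rw [zpow_zero, mul_one, _root_.zpow_neg_one]
        exact inv_lt_one_of_one_lt₀ a2
    · refine ⟨0, 1, fun j hj => ?_⟩
      fin_cases j
      · show R.al 0 ^ (0 : ℤ) * R.be 0 ^ (1 : ℤ) < 1
        rw [zpow_zero, one_mul, zpow_one]
        exact b0
      · show R.al 1 ^ (0 : ℤ) * R.be 1 ^ (1 : ℤ) < 1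
        rw [zpow_zero, one_mul, zpow_one]
        exact b1
      · exact absurd rfl hj
  mind m n h := by
    have a0 : 1 < R.al 0 := R.D.al_a
    have a2 : 1 < R.al 2 := R.D.al_c
    have b2 : 1 < R.be 2 := R.D.c0
    have h0 := h 0
    have h2 := h 2
    have hb0 : R.be 0 < 1 := R.D.a_lt
    have hb0' := R.bepos 0
    rcases lt_trichotomy m 0 with hm | hm | hm
    · exfalso
      have e2 : R.al 2 ^ m < 1 := zpow_lt_one_of_neg₀ a2 hm
      have e0 : R.al 0 ^ m < 1 := zpow_lt_one_of_neg₀ a0 hm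
      have p2 : 0 < R.al 2 ^ m := zpow_pos (R.alpos 2) m
      have p0 : 0 < R.al 0 ^ m := zpow_pos (R.alpos 0) m
      have hn : 0 < n := by
        by_contra hn
        push Not at hn
        have e3 : R.be 2 ^ n ≤ 1 := zpow_le_one_of_nonpos₀ b2.le hn
        have p3 : 0 < R.be 2 ^ n := zpow_pos (R.bepos 2) n
        nlinarith
      have e4 : R.be 0 ^ n < 1 := zpow_lt_one₀ hb0' hb0 hn
      have p4 : 0 < R.be 0 ^ n := zpow_pos (R.bepos 0) n
      nlinarith
    · subst hm
      refine ⟨rfl, ?_⟩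
      rw [zpow_zero, one_mul] at h2
      rcases lt_trichotomy n 0 with hn | hn | hn
      · have := zpow_lt_one_of_neg₀ b2 hn
        linarith
      · exact hn
      · have := one_lt_zpow₀ b2 hn
        linarith
    · exfalso
      have e2 : 1 < R.al 2 ^ m := one_lt_zpow₀ a2 hm
      have e0 : 1 < R.al 0 ^ m := one_lt_zpow₀ a0 hm
      have hn : n < 0 := by
        by_contra hn
        push Not at hn
        have e3 : 1 ≤ R.be 2 ^ n := one_le_zpow₀ b2.le hn
        nlinarith
      have e4 : 1 < R.be 0 ^ n := one_lt_zpow_of_neg₀ hb0' hb0 hn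
      nlinarith
  basU := by
    rw [Av, Bv, Fintype.linearIndependent_iff]
    intro g hg
    have h0 := congrFun hg 0
    have h1 := congrFun hg 1
    have h2 := congrFun hg 2
    simp [Fin.sum_univ_three, ic] at h0 h1 h2
    intro i
    fin_cases i
    · exact h0
    · exact h1
    · exact h2
  basD := by
    rw [Av, Bv, ABv, Fintype.linearIndependent_iff]
    intro g hg
    have h0 := congrFun hg 0
    have h1 := congrFun hg 1
    have h2 := congrFun hg 2
    have hd : (p.d : ℝ) ≠ 0 := by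
      have := p.hd
      have : p.d ≠ 0 := by omega
      exact_mod_cast this
    simp [Fin.sum_univ_three, ic] at h0 h1 h2
    have g2 : g 2 = 0 := by
      rcases h0 with h | h
      · exact h
      · exact absurd (by exact_mod_cast h) hd
    rw [g2] at h1 h2
    intro i
    fin_cases i
    · show g 0 = 0
      linarith
    · show g 1 = 0
      linarith
    · exact g2
  uniU z h := by
    rw [Av, Bv]
    have h1 : z 0 + z 1 + z 2 = 0 := by
      simpa [Fin.sum_univ_three] using h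
    refine ⟨z 1, z 2, ?_⟩
    funext i
    fin_cases i
    · simp; linarith
    · simp
    · simp
  uniD z h := by
    rw [Av, Bv, ABv]
    have h1 : p.r * z 0 + p.d * z 1 + p.d * z 2 = 0 := by
      simpa [Fin.sum_univ_three] using h
    have hrel := p.relZ
    have hr : p.r = p.m * p.d - p.x := rfl
    have hd : (p.d : ℤ) ≠ 0 := by
      have := p.hd
      have : p.d ≠ 0 := by omega
      exact_mod_cast this
    have h4 : (p.d : ℤ) * p.d - p.x * p.r = 1 := by rw [hr]; linarith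
    -- `z 0 = d q`
    have h5 : z 0 = p.d * (p.d * z 0 + p.x * (z 1 + z 2)) := by
      linear_combination (-z 0) * h4 - p.x * h1
    obtain ⟨q, hq⟩ : ∃ q, q = p.d * z 0 + p.x * (z 1 + z 2) := ⟨_, rfl⟩
    rw [← hq] at h5
    have h6 : (p.d : ℤ) * (p.r * q + z 1 + z 2) = 0 := by
      rw [h5] at h1
      linear_combination h1
    have h7 : p.r * q + z 1 + z 2 = 0 := (mul_eq_zero.mp h6).resolve_left hd
    refine ⟨-z 1, -q, ?_⟩
    funext i
    fin_cases i
    · simp
      linarith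
    · simp
    · simp
      linarith
  primU d hd := by
    have := hd 0
    simpa using isUnit_of_dvd_one this
  primD d hd := by
    have h0 : d ∣ p.r := hd 0
    have h1 : d ∣ (p.d : ℤ) := hd 1
    have hrel := p.relZ
    have hr : p.r = p.m * p.d - p.x := rfl
    have h4 : (p.d : ℤ) * p.d - p.x * p.r = 1 := by rw [hr]; linarith
    have h2 : d ∣ 1 := by
      rw [← h4]
      exact dvd_sub (Dvd.dvd.mul_left h1 _) (Dvd.dvd.mul_left h0 _)
    exact isUnit_of_dvd_one h2

end Rts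

end Par

end Pool.Agent.KS6_21.S
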